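import Pool.Agent.Helper64.Cyc.Lower

/-!
# The uniform order of the logarithm: lower bound for large quotient
-/

namespace Pool.Agent.Helper64.Cyc

open SimpleGraph Finset Pool.Agent.Helper72.Cyc

lemma exists_B {a : ℝ} (ha : 0 < a) : ∃ B : ℕ, 3 ≤ B ∧
    Real.exp 1 ≤ a * ((B - 1 : ℕ) : ℝ) / 4 ∧ 16 / a ^ 2 ≤ ((B - 1 : ℕ) : ℝ) := by
  obtain ⟨b, hb⟩ := exists_nat_ge (max 2 (max (4 * Real.exp 1 / a) (16 / a ^ 2)))
  have h1 : (2 : ℝ) ≤ b := (le_max_left _ _).trans hb
  have h2 : 4 * Real.exp 1 / a ≤ b := ((le_max_left _ _).trans (le_max_right _ _)).trans hb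
  have h3 : 16 / a ^ 2 ≤ b := ((le_max_right _ _).trans (le_max_right _ _)).trans hb
  refine ⟨b + 1, by have : 2 ≤ b := by exact_mod_cast h1
                    omega, ?_, ?_⟩
  · rw [Nat.add_sub_cancel]
    rw [div_le_iff₀ ha] at h2
    linarith
  · rw [Nat.add_sub_cancel]; exact h3

lemma log_half {a : ℝ} (ha : 0 < a) {D : ℝ} (hD : 16 / a ^ 2 ≤ D) (hD0 : 1 ≤ D) :
    1 / 2 * Real.log D ≤ Real.log (a * D / 4) := by
  have h0 : (0 : ℝ) < D := by linarith
  have h1 : D ≤ (a * D / 4) ^ 2 := by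
    rw [div_le_iff₀ (by positivity)] at hD
    have : D * 16 ≤ D * (D * a ^ 2) := mul_le_mul_of_nonneg_left hD h0.le
    nlinarith
  have h2 := Real.log_le_log h0 h1
  rw [Real.log_pow] at h2
  push_cast at h2
  linarith

/-- Lower bounds of the shape `(n/g) log(n/g)`. -/
lemma lower_shape {Φ : ℕ → ℕ → ℝ} {B : ℕ} (hB3 : 3 ≤ B)
    (hdense : ∀ D n g : ℕ, 3 ≤ g → B - 1 ≤ D → 2 * (D + 1) ^ g ≤ n →
      n * (1 / 2 * Real.log D) ≤ Φ n g)
    (hsparse : ∀ n g : ℕ, 3 ≤ g → n < 2 * B ^ g →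
      4 * (2 * B ^ 4 + 2) * B ^ 3 * g ≤ 3 * n →
      ∃ γ : ℕ, (B : ℝ) ^ γ ≤ Φ n g ∧ (γ + 1) * n < 4 * (2 * B ^ 4 + 2) * B ^ (γ + 1) * g) :
    ∃ a' : ℝ, 0 < a' ∧ ∃ K : ℕ, 2 ≤ K ∧ ∀ g n : ℕ, 3 ≤ g → K * g ≤ n →
      a' * ((n : ℝ) / g) * Real.log ((n : ℝ) / g) ≤ Φ n g := by
  set c := 4 * (2 * B ^ 4 + 2) with hc
  have hc8 : 8 ≤ c := by rw [hc]; omega
  have hB0 : (3 : ℝ) ≤ B := by exact_mod_cast hB3
  have hlogB : 0 < Real.log B := Real.log_pos (by linarith)
  have hcR : (8 : ℝ) ≤ c := by exact_mod_cast hc8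
  have hcB : 0 < 2 * ((c : ℝ) * B * Real.log B) := by positivity
  refine ⟨min (1 / 6) (1 / (2 * (c * B * Real.log B))), by positivity, c * B ^ 3 + c ^ 2, ?_, ?_⟩
  · have : 0 < c ^ 2 := by positivity
    have h1 : 8 * 1 ≤ c * c ^ 1 := Nat.mul_le_mul hc8 (by rw [pow_one]; omega)
    have h2 : c ^ 2 = c * c ^ 1 := by ring
    omega
  intro g n hg hn
  have hg0 : (0 : ℝ) < g := by exact_mod_cast (by omega : 0 < g)
  have hgn : g ≤ n := by
    have h1 : 1 * g ≤ (c * B ^ 3 + c ^ 2) * g := by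
      apply Nat.mul_le_mul_right
      have : 0 < c ^ 2 := by positivity
      omega
    omega
  have hn0 : (0 : ℝ) < n := by exact_mod_cast (by omega : 0 < n)
  set x : ℝ := (n : ℝ) / g with hxdef
  have hx1 : 1 ≤ x := by
    rw [hxdef, le_div_iff₀ hg0, one_mul]; exact_mod_cast hgn
  have hx0 : 0 < x := by linarith
  have hlx : 0 ≤ Real.log x := Real.log_nonneg hx1
  rcases Nat.lt_or_ge n (2 * B ^ g) with hsp | hde
  · -- sparse
    have hx3 : 4 * (2 * B ^ 4 + 2) * B ^ 3 * g ≤ 3 * n := by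
      rw [← hc]
      have : c * B ^ 3 * g ≤ (c * B ^ 3 + c ^ 2) * g := Nat.mul_le_mul_right _ (by omega)
      omega
    obtain ⟨γ, h1, h2⟩ := hsparse n g hg hsp hx3
    have h2' : ((γ : ℝ) + 1) * n < c * B ^ (γ + 1) * g := by exact_mod_cast h2
    have h3 : ((γ : ℝ) + 1) * x < c * B ^ (γ + 1) := by
      rw [hxdef, ← mul_div_assoc, div_lt_iff₀ hg0]; exact h2'
    have hxc : (c : ℝ) ^ 2 ≤ x := by
      rw [hxdef, le_div_iff₀ hg0]
      have : c ^ 2 * g ≤ n := by
        have : c ^ 2 * g ≤ (c * B ^ 3 + c ^ 2) * g := Nat.mul_le_mul_right _ (by omega)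
        omega
      exact_mod_cast this
    have h4 : x ≤ c * (B : ℝ) ^ (γ + 1) := by
      have : (0 : ℝ) ≤ γ := Nat.cast_nonneg _
      nlinarith
    have h5 : Real.log x ≤ Real.log c + (γ + 1) * Real.log B := by
      have := Real.log_le_log hx0 h4
      rw [Real.log_mul (by positivity) (by positivity), Real.log_pow] at this
      push_cast at this
      exact this
    have h6 : 2 * Real.log c ≤ Real.log x := by
      have := Real.log_le_log (by positivity) hxc
      rw [Real.log_pow] at this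
      push_cast at this
      exact this
    have h7 : 1 / 2 * Real.log x ≤ (γ + 1) * Real.log B := by linarith
    have h8 : 1 / (2 * (c * B * Real.log B)) * x * Real.log x ≤ (B : ℝ) ^ γ := by
      rw [div_mul_eq_mul_div, one_mul, div_mul_eq_mul_div, div_le_iff₀ hcB]
      have e1 : (B : ℝ) ^ γ * (2 * (c * B * Real.log B)) =
          2 * Real.log B * (c * (B : ℝ) ^ (γ + 1)) := by rw [pow_succ]; ring
      rw [e1]
      calc x * Real.log x ≤ x * (2 * ((γ + 1) * Real.log B)) :=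
            mul_le_mul_of_nonneg_left (by linarith) hx0.le
        _ = 2 * Real.log B * (((γ : ℝ) + 1) * x) := by ring
        _ ≤ 2 * Real.log B * (c * (B : ℝ) ^ (γ + 1)) :=
            mul_le_mul_of_nonneg_left h3.le (by positivity)
    calc min (1 / 6) (1 / (2 * (c * B * Real.log B))) * x * Real.log x
        ≤ 1 / (2 * (c * B * Real.log B)) * x * Real.log x := by
          apply mul_le_mul_of_nonneg_right _ hlx
          exact mul_le_mul_of_nonneg_right (min_le_right _ _) hx0.le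
      _ ≤ (B : ℝ) ^ γ := h8
      _ ≤ _ := h1
  · -- dense
    classical
    let P : ℕ → Prop := fun D => 2 * (D + 1) ^ g ≤ n
    have hPB : P (B - 1) := by
      show 2 * (B - 1 + 1) ^ g ≤ n
      have : B - 1 + 1 = B := by omega
      rw [this]; exact hde
    have hPle : ∀ D, P D → D + 1 ≤ n := by
      intro D hD
      have h1 : D + 1 ≤ (D + 1) ^ g := Nat.le_self_pow (by omega) _
      have h2 : 2 * (D + 1) ^ g ≤ n := hD
      omega
    set D := Nat.findGreatest P n with hDdef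
    have hPD : P D := Nat.findGreatest_spec (by have := hPle _ hPB; omega) hPB
    have hBD : B - 1 ≤ D := Nat.le_findGreatest (by have := hPle _ hPB; omega) hPB
    have hnP : ¬ P (D + 1) := by
      have := hPle D hPD
      exact Nat.findGreatest_is_greatest (Nat.lt_succ_self D) this
    have hlt : n < 2 * (D + 1 + 1) ^ g := not_le.1 hnP
    have hD2 : 2 ≤ D := by omega
    have hD2R : (2 : ℝ) ≤ D := by exact_mod_cast hD2
    have h1 := hdense D n g hg hBD hPD
    have hlogD : 0 < Real.log D := Real.log_pos (by linarith)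
    have h3 : Real.log n ≤ 3 * g * Real.log D := by
      have e1 : (n : ℝ) ≤ 2 * ((D : ℝ) + 1 + 1) ^ g := by exact_mod_cast hlt.le
      have e2 := Real.log_le_log hn0 e1
      rw [Real.log_mul (by norm_num) (by positivity), Real.log_pow] at e2
      have e3 : Real.log 2 ≤ Real.log D := Real.log_le_log (by norm_num) hD2R
      have e4 : Real.log ((D : ℝ) + 1 + 1) ≤ 2 * Real.log D := by
        have : (D : ℝ) + 1 + 1 ≤ (D : ℝ) ^ 2 := by nlinarith
        have := Real.log_le_log (by positivity) this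
        rw [Real.log_pow] at this
        push_cast at this
        exact this
      have e5 : (1 : ℝ) ≤ g := by exact_mod_cast (by omega : 1 ≤ g)
      nlinarith
    have h4 : Real.log x ≤ Real.log n := by
      apply Real.log_le_log hx0
      rw [hxdef, div_le_iff₀ hg0]
      have e5 : (1 : ℝ) ≤ g := by exact_mod_cast (by omega : 1 ≤ g)
      nlinarith
    calc min (1 / 6) (1 / (2 * (c * B * Real.log B))) * x * Real.log x
        ≤ 1 / 6 * x * Real.log x := by
          apply mul_le_mul_of_nonneg_right _ hlx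
          exact mul_le_mul_of_nonneg_right (min_le_left _ _) hx0.le
      _ ≤ 1 / 6 * x * (3 * g * Real.log D) :=
          mul_le_mul_of_nonneg_left (h4.trans h3) (by positivity)
      _ = n * (1 / 2 * Real.log D) := by
          rw [hxdef]; field_simp; ring
      _ ≤ _ := h1

lemma lower_large {a : ℝ} (ha : 0 < a) (hU : EdgeBound a) : ∃ a' : ℝ, 0 < a' ∧ ∃ K : ℕ, 2 ≤ K ∧
    ∀ g n : ℕ, 3 ≤ g → K * g ≤ n →
      a' * ((n : ℝ) / g) * Real.log ((n : ℝ) / g) ≤ Real.log (maxCycles n g) := by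
  obtain ⟨B, hB3, hBe, hB16⟩ := exists_B ha
  apply lower_shape (Φ := fun n g => Real.log (maxCycles n g)) hB3
  · intro D n g hg hBD hn
    have hD2R : (2 : ℝ) ≤ D := by exact_mod_cast (by omega : 2 ≤ D)
    have hD16 : 16 / a ^ 2 ≤ (D : ℝ) := hB16.trans (by exact_mod_cast hBD)
    have h1 := log_maxCycles_dense ha hU hg hn (by omega)
    have h2 := log_half ha hD16 (by linarith)
    exact (mul_le_mul_of_nonneg_left h2 (Nat.cast_nonneg _)).trans h1
  · intro n g hg hsp hx3
    obtain ⟨γ, -, h1, h2⟩ := sparse_step ha hU (by omega) hBe hg hsp hx3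
    refine ⟨γ, ?_, h2⟩
    have : (0 : ℝ) ≤ (B : ℝ) ^ γ := by positivity
    linarith

end Pool.Agent.Helper64.Cyc
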