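import Pool.Agent.Helper64.Cyc.Theta

/-!
# Small numbers of vertices
-/

namespace Pool.Agent.Helper64.Cyc

open SimpleGraph Finset Pool.Agent.Helper72.Cyc

variable {V : Type*} {G : SimpleGraph V}

lemma IsCyc.cpar_shift {L : ℕ} {u : ℕ → V} (h : IsCyc G L u) :
    cpar L (fun i => u (i + 1)) = cpar L u := by
  unfold cpar
  have h3 := h.three
  obtain ⟨M, rfl⟩ : ∃ M, L = M + 1 := ⟨L - 1, by omega⟩
  rw [Finset.sum_range_succ, Finset.sum_range_succ' (fun i => ind (u i) (u (i + 1)))]
  congr 1
  have h1 := h.per 0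
  have h2 := h.per 1
  rw [zero_add] at h1
  have e : 1 + (M + 1) = M + 1 + 1 := by ring
  rw [e] at h2
  show ind (u (M + 1)) (u (M + 1 + 1)) = _
  rw [h1, h2]

lemma IsCyc.cpar_shift_add {L : ℕ} {u : ℕ → V} (h : IsCyc G L u) (a : ℕ) :
    cpar L (fun i => u (i + a)) = cpar L u := by
  induction a with
  | zero => rfl
  | succ a ih =>
    have := (h.shift_add a).cpar_shift
    rw [← ih, ← this]
    congr 1
    funext i; congr 1; ring

open scoped Classical in
lemma psum_zero_of {u : ℕ → V} {t : ℕ} {e : Sym2 V}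
    (h : ∀ i < t, e ≠ s(u i, u (i + 1))) : psum u t e = 0 := by
  unfold psum
  rw [Finset.sum_apply]
  apply Finset.sum_eq_zero
  intro i hi
  simp only [ind]
  rw [if_neg (h i (Finset.mem_range.1 hi))]

open scoped Classical in
lemma psum_one_of {u : ℕ → V} {t q : ℕ} (hq : q < t)
    (h : ∀ i < t, s(u i, u (i + 1)) = s(u q, u (q + 1)) → i = q) :
    psum u t s(u q, u (q + 1)) = 1 := by
  unfold psum
  rw [Finset.sum_apply, Finset.sum_eq_single q]
  · simp only [ind, if_true]
  · intro j hj hjq
    simp only [ind]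
    rw [if_neg]
    intro he
    exact hjq (h j (Finset.mem_range.1 hj) he.symm)
  · intro hn
    exact absurd (Finset.mem_range.2 hq) hn

lemma ear_bound [Fintype V] {g : ℕ} (hG : NoShort G g) {L L' : ℕ} {u w : ℕ → V}
    (hu : IsCyc G L u) (hw : IsCyc G L' w) (h0 : u 0 = w 0) {j : ℕ} (hj : j < L')
    (hbad : ∀ i < L, s(w j, w (j + 1)) ≠ s(u i, u (i + 1))) :
    3 * g ≤ 2 * Fintype.card V + 2 := by
  classical
  have hL3 := hu.three
  have hLg := noShort_iff.1 hG L u hu
  let U : V → Prop := fun v => ∃ i < L, u i = v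
  have hU0 : U (w 0) := ⟨0, by omega, h0⟩
  have hwL : w L' = w 0 := by have := hw.per 0; rwa [zero_add] at this
  -- the ear
  let Q : ℕ → Prop := fun a => U (w a)
  set a := Nat.findGreatest Q j with ha
  have hQa : Q a := Nat.findGreatest_spec (Nat.zero_le j) hU0
  have haj : a ≤ j := Nat.findGreatest_le j
  have hamax : ∀ i, a < i → i ≤ j → ¬ Q i := fun i h1 h2 => Nat.findGreatest_is_greatest h1 h2
  have hbex : ∃ b, j < b ∧ Q b := ⟨L', hj, by show U (w L'); rw [hwL]; exact hU0⟩
  set b := Nat.find hbex with hb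
  obtain ⟨hjb, hQb⟩ := Nat.find_spec hbex
  have hbL : b ≤ L' := Nat.find_min' hbex ⟨hj, by show U (w L'); rw [hwL]; exact hU0⟩
  have hbmin : ∀ i, j < i → i < b → ¬ Q i := fun i h1 h2 h3 => Nat.find_min hbex h2 ⟨h1, h3⟩
  have hout : ∀ i, a < i → i < b → ¬ U (w i) := by
    intro i h1 h2
    rcases Nat.lt_or_ge j i with h | h
    · exact hbmin i h h2
    · exact hamax i h1 h
  have hab : a < b := by omega
  obtain ⟨x, hx, hxa⟩ := hQa
  obtain ⟨y, hy, hyb⟩ := hQb
  -- rotate
  set u' : ℕ → V := fun i => u (i + x) with hu'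
  have hcu : IsCyc G L u' := hu.shift_add x
  have hedge : ∀ i, ∃ i' < L, s(u' i, u' (i + 1)) = s(u i', u (i' + 1)) := by
    intro i
    have hmod : ∀ t, u (t % L) = u t := by
      intro t
      have : ∀ q r : ℕ, u (r + L * q) = u r := by
        intro q r
        induction q with
        | zero => simp
        | succ q ih =>
          have e : r + L * (q + 1) = (r + L * q) + L := by ring
          rw [e, hu.per, ih]
      conv_rhs => rw [← Nat.mod_add_div t L]
      exact (this _ _).symm
    refine ⟨(i + x) % L, Nat.mod_lt _ (by omega), ?_⟩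
    have h1 : u ((i + x) % L + 1) = u (i + x + 1) := by
      rw [← hmod ((i + x) % L + 1), ← hmod (i + x + 1)]
      congr 1
      rw [Nat.add_mod, Nat.mod_mod, ← Nat.add_mod]
    rw [h1, hmod]
    simp only [hu']
    have e : i + 1 + x = i + x + 1 := by ring
    rw [e]
  obtain ⟨s, hs, hsy⟩ : ∃ s < L, u' s = w b := by
    rcases Nat.lt_or_ge y x with h | h
    · refine ⟨y + L - x, by omega, ?_⟩
      simp only [hu']
      have e : y + L - x + x = y + L := by omega
      rw [e, hu.per, hyb]
    · refine ⟨y - x, by omega, ?_⟩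
      simp only [hu']
      have e : y - x + x = y := by omega
      rw [e, hyb]
  have hu'0 : u' 0 = w a := by simp only [hu', zero_add]; exact hxa
  have hu'L : u' L = w a := by have := hcu.per 0; rw [zero_add] at this; rw [this, hu'0]
  -- the parity of the ear
  set w' : ℕ → V := fun i => w (i + a) with hw'
  have hcw : IsCyc G L' w' := hw.shift_add a
  have hq1 : psum w' (b - a) s(w j, w (j + 1)) = 1 := by
    have e1 : w j = w' (j - a) := by simp only [hw']; congr 1; omega
    have e2 : w (j + 1) = w' (j - a + 1) := by simp only [hw']; congr 1; omega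
    rw [e1, e2]
    apply psum_one_of (by omega)
    intro i hi he
    exact hcw.edge_inj (by omega) (by omega) he
  have hear : Con G (w a) (w b) (b - a) (psum w' (b - a)) := by
    have := con_psum' hcw.adj (a := 0) (b := b - a) (l := b - a) (by omega) (by omega)
    rw [psum_zero, zero_add] at this
    have e1 : w' 0 = w a := by simp only [hw', zero_add]
    have e2 : w' (b - a) = w b := by simp only [hw']; congr 1; omega
    rwa [e1, e2] at this
  have harc1 : Con G (w a) (w b) s (psum u' s) := by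
    have := con_psum' hcu.adj (a := 0) (b := s) (l := s) (by omega) (by omega)
    rwa [psum_zero, zero_add, hu'0, hsy] at this
  have harc2 : Con G (w b) (w a) (L - s) (psum u' s + psum u' L) := by
    have := con_psum' hcu.adj (a := s) (b := L) (l := L - s) (by omega) (by omega)
    rwa [hsy, hu'L] at this
  have hzero : ∀ t, psum u' t s(w j, w (j + 1)) = 0 := by
    intro t
    apply psum_zero_of
    intro i _
    obtain ⟨i', hi', he⟩ := hedge i
    rw [he]
    exact hbad i' hi'
  have hb1 : g ≤ s + (b - a) := by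
    by_contra hlt
    have := Con.unique hG harc1 hear (by omega)
    have h1 := congrFun this s(w j, w (j + 1))
    rw [hq1, hzero] at h1
    exact absurd h1.symm one_ne_zero
  have hb2 : g ≤ (L - s) + (b - a) := by
    by_contra hlt
    have := Con.unique hG harc2.symm hear (by omega)
    have h1 := congrFun this s(w j, w (j + 1))
    rw [hq1, Pi.add_apply, hzero, hzero, add_zero] at h1
    exact absurd h1.symm one_ne_zero
  -- count vertices
  have hinj : Function.Injective (fun z : Fin L ⊕ Fin (b - a - 1) =>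
      Sum.elim (fun i : Fin L => u i.val) (fun i : Fin (b - a - 1) => w (a + 1 + i.val)) z) := by
    rintro (i | i) (k | k) hik
    · simp only [Sum.elim_inl] at hik
      rw [Fin.ext (hu.inj _ _ i.2 k.2 hik)]
    · exfalso
      simp only [Sum.elim_inl, Sum.elim_inr] at hik
      exact hout (a + 1 + k.val) (by omega) (by have := k.2; omega) ⟨i.val, i.2, hik⟩
    · exfalso
      simp only [Sum.elim_inl, Sum.elim_inr] at hik
      exact hout (a + 1 + i.val) (by omega) (by have := i.2; omega) ⟨k.val, k.2, hik.symm⟩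
    · simp only [Sum.elim_inr] at hik
      have := hw.inj _ _ (by have := i.2; omega) (by have := k.2; omega) hik
      rw [Fin.ext (show i.val = k.val by omega)]
  have hcard := Fintype.card_le_of_injective _ hinj
  rw [Fintype.card_sum, Fintype.card_fin, Fintype.card_fin] at hcard
  omega

lemma two_cycles_bound [Fintype V] {g : ℕ} (hG : NoShort G g) {L L' : ℕ} {u w : ℕ → V}
    (hu : IsCyc G L u) (hw : IsCyc G L' w) (hne : cpar L u ≠ cpar L' w) :
    3 * g ≤ 2 * Fintype.card V + 2 := by
  classical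
  have hLg := noShort_iff.1 hG L u hu
  have hLg' := noShort_iff.1 hG L' w hw
  by_cases hsh : ∃ i j, u i = w j
  · obtain ⟨i, j, hij⟩ := hsh
    have hu' := hu.shift_add i
    have hw' := hw.shift_add j
    rw [← hu.cpar_shift_add i, ← hw.cpar_shift_add j] at hne
    set u' : ℕ → V := fun t => u (t + i) with hu'd
    set w' : ℕ → V := fun t => w (t + j) with hw'd
    have h0 : u' 0 = w' 0 := by simp only [hu'd, hw'd, zero_add]; exact hij
    by_cases h1 : ∃ q < L', ∀ p < L, s(w' q, w' (q + 1)) ≠ s(u' p, u' (p + 1))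
    · obtain ⟨q, hq, hbad⟩ := h1
      exact ear_bound hG hu' hw' h0 hq hbad
    · by_cases h2 : ∃ q < L, ∀ p < L', s(u' q, u' (q + 1)) ≠ s(w' p, w' (p + 1))
      · obtain ⟨q, hq, hbad⟩ := h2
        exact ear_bound hG hw' hu' h0.symm hq hbad
      · exfalso
        push Not at h1 h2
        apply hne
        funext e
        rw [hu'.cpar_apply, hw'.cpar_apply]
        congr 1
        apply propext
        constructor
        · rintro ⟨q, hq, rfl⟩
          exact h2 q hq
        · rintro ⟨q, hq, rfl⟩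
          exact h1 q hq
  · push Not at hsh
    have hinj : Function.Injective (fun z : Fin L ⊕ Fin L' =>
        Sum.elim (fun i : Fin L => u i.val) (fun i : Fin L' => w i.val) z) := by
      rintro (i | i) (k | k) hik
      · simp only [Sum.elim_inl] at hik
        rw [Fin.ext (hu.inj _ _ i.2 k.2 hik)]
      · exact absurd hik (hsh _ _)
      · exact absurd hik.symm (hsh _ _)
      · simp only [Sum.elim_inr] at hik
        rw [Fin.ext (hw.inj _ _ i.2 k.2 hik)]
    have hcard := Fintype.card_le_of_injective _ hinj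
    rw [Fintype.card_sum, Fintype.card_fin, Fintype.card_fin] at hcard
    omega

/-- At most one cycle. -/
lemma maxCycles_le_one {n g : ℕ} (hn : 2 * n + 2 < 3 * g) : maxCycles n g ≤ 1 := by
  classical
  obtain ⟨G, hG, hc⟩ := exists_maxCycles n g
  rw [← hc, numCycles_eq_card, Finset.card_le_one]
  intro P hP P' hP'
  by_contra hne
  obtain ⟨L, u, hu, rfl⟩ := mem_cycSet.1 hP
  obtain ⟨L', w, hw, rfl⟩ := mem_cycSet.1 hP'
  have := two_cycles_bound hG hu hw hne
  rw [Fintype.card_fin] at this
  omega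

/-- No cycle. -/
lemma maxCycles_eq_zero {n g : ℕ} (hn : n < g) : maxCycles n g = 0 := by
  classical
  obtain ⟨G, hG, hc⟩ := exists_maxCycles n g
  rw [← hc, numCycles_eq_card, Finset.card_eq_zero]
  rw [Finset.eq_empty_iff_forall_notMem]
  intro P hP
  obtain ⟨L, u, hu, rfl⟩ := mem_cycSet.1 hP
  have h1 := noShort_iff.1 hG L u hu
  have h2 := hu.le_card
  rw [Fintype.card_fin] at h2
  omega

/-- The ring. -/
lemma noShort_ring {n : ℕ} (hn : 3 ≤ n) : NoShort (pathCh n (fun i j => i = 0 ∧ j = n - 1)) n := by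
  classical
  rw [noShort_iff]
  intro L w hw
  have hL3 := hw.three
  set S : Finset ℕ := (Finset.range L).image (fun i => (w i).val) with hS
  have hSL : S.card ≤ L := by
    have := Finset.card_image_le (s := Finset.range L) (f := fun i => (w i).val)
    rwa [Finset.card_range] at this
  have hvis : ∀ i j, UN L w i j → i ∈ S ∧ j ∈ S := by
    rintro i j ⟨hi, hj, hu⟩
    obtain ⟨⟨a, ha, ha'⟩, ⟨b, hb, hb'⟩⟩ := hw.visited hu
    constructor
    · rw [hS, Finset.mem_image]
      exact ⟨a, Finset.mem_range.2 ha, by rw [ha']⟩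
    · rw [hS, Finset.mem_image]
      exact ⟨b, Finset.mem_range.2 hb, by rw [hb']⟩
  have hcross : ∀ c d j, UN L w c d → c ≤ j → j < d →
      (UN L w j (j + 1) ∧ ¬ (c = j ∧ d = j + 1)) ∨ (UN L w 0 (n - 1) ∧ ¬ (c = 0 ∧ d = n - 1)) := by
    rintro c d j ⟨hcn, hdn, hu⟩ hc hd
    obtain ⟨c', d', h1, h2, h3, h4, h5⟩ := hw.cross' (fun v => v.val ≤ j) hu hc
      (by simp only; omega)
    have h2 : c'.val ≤ j := h2
    have h3 : ¬ d'.val ≤ j := h3
    rw [pathCh_adj] at h4
    have h5' : ¬ (c'.val = c ∧ d'.val = d) := by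
      rintro ⟨e1, e2⟩
      exact h5 ⟨Fin.ext e1, Fin.ext e2⟩
    have hUN : UN L w c'.val d'.val := ⟨c'.2, d'.2, h1⟩
    obtain ⟨-, (h6 | ⟨e1, e2⟩) | (h6 | ⟨e1, e2⟩)⟩ := h4
    · left
      have e1 : c'.val = j := by omega
      have e2 : d'.val = j + 1 := by omega
      rw [e1, e2] at hUN
      exact ⟨hUN, by rw [e1, e2] at h5'; rintro ⟨e3, e4⟩; exact h5' ⟨e3.symm, e4.symm⟩⟩
    · right
      rw [e1, e2] at hUN h5'
      exact ⟨hUN, by rintro ⟨e3, e4⟩; exact h5' ⟨e3.symm, e4.symm⟩⟩
    · omega
    · omega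
  have hA : UN L w 0 (n - 1) := by
    have hj : (∃ j, UN L w j (j + 1)) ∨ UN L w 0 (n - 1) := by
      have h0 := hw.adj 0
      rw [pathCh_adj, zero_add] at h0
      have hu : UN L w (w 0).val (w 1).val := ⟨(w 0).2, (w 1).2, 0, by omega, rfl⟩
      have hu' : UN L w (w 1).val (w 0).val := ⟨(w 1).2, (w 0).2, 0, by omega, Sym2.eq_swap⟩
      obtain ⟨-, (h6 | ⟨e1, e2⟩) | (h6 | ⟨e1, e2⟩)⟩ := h0
      · left
        exact ⟨(w 0).val, by rw [h6]; exact hu⟩
      · right
        rw [e1, e2] at hu; exact hu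
      · left
        exact ⟨(w 1).val, by rw [h6]; exact hu'⟩
      · right
        rw [e1, e2] at hu'; exact hu'
    rcases hj with ⟨j, hj⟩ | h
    · rcases hcross _ _ j hj le_rfl (by omega) with h | h
      · exact absurd ⟨rfl, rfl⟩ h.2
      · exact h.1
    · exact h
  have hsub : Finset.range n ⊆ S := by
    intro x hx
    rw [Finset.mem_range] at hx
    rcases Nat.lt_or_ge x (n - 1) with h | h
    · rcases hcross _ _ x hA (by omega) h with h' | h'
      · exact (hvis _ _ h'.1).1
      · exact absurd ⟨rfl, rfl⟩ h'.2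
    · have : x = n - 1 := by omega
      rw [this]; exact (hvis _ _ hA).2
  have hcard := Finset.card_le_card hsub
  rw [Finset.card_range] at hcard
  omega

/-- At least one cycle. -/
lemma one_le_maxCycles {n g : ℕ} (hg : 3 ≤ g) (hn : g ≤ n) : 1 ≤ maxCycles n g := by
  classical
  have h1 := NoShort.mono_g (noShort_ring (n := n) (by omega)) hn
  refine le_trans ?_ (numCycles_le_maxCycles h1 (by rw [Fintype.card_fin]))
  rw [numCycles_eq_card]
  apply Finset.card_pos.2
  have c1 := isCyc_chord (n := n) (C := fun i j => i = 0 ∧ j = n - 1) (a := 0) (b := n - 1)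
    (by omega) (by omega) ⟨rfl, rfl⟩
  exact ⟨_, mem_cycSet.2 ⟨_, _, c1, rfl⟩⟩

end Pool.Agent.Helper64.Cyc
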