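import Pool.Agent.Helper64.Cyc.Lower
import Pool.Agent.Helper64.Cyc.Small

/-!
# The number of edges: lower bound
-/

namespace Pool.Agent.Helper64.Cyc

open SimpleGraph Finset Pool.Agent.Helper72.Cyc

variable {V : Type*} {G : SimpleGraph V}

/-- Adding a pendant vertex. -/
def pend (G : SimpleGraph V) (v0 : V) : SimpleGraph (Option V) where
  Adj a b := match a, b with
    | some a, some b => G.Adj a b
    | some a, none => a = v0
    | none, some b => b = v0
    | none, none => False
  symm := ⟨by
    rintro (_ | a) (_ | b) h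
    · exact h
    · exact h
    · exact h
    · exact h.symm⟩
  loopless := ⟨by
    rintro (_ | a) h
    · exact h
    · exact G.loopless.irrefl a h⟩

lemma noShort_pend {g : ℕ} (hG : NoShort G g) (v0 : V) : NoShort (pend G v0) g := by
  rw [noShort_iff]
  intro L w hw
  have h3 := hw.three
  by_cases hex : ∃ i, w i = none
  · exfalso
    obtain ⟨i, hi⟩ := hex
    have hc := hw.shift_add i
    have h0 : (fun t => w (t + i)) 0 = none := by simp only [zero_add]; exact hi
    set w' : ℕ → Option V := fun t => w (t + i) with hw'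
    have hn : ∀ x, (pend G v0).Adj none x → x = some v0 := by
      rintro (_ | x) hx
      · exact absurd hx (fun h => h)
      · have : x = v0 := hx
        rw [this]
    have h1 : w' 1 = some v0 := by
      apply hn
      have := hc.adj 0
      rwa [h0] at this
    have h2 : w' (L - 1) = some v0 := by
      apply hn
      have := hc.adj (L - 1)
      have e : L - 1 + 1 = 0 + L := by omega
      rw [e, hc.per, h0] at this
      exact this.symm
    have := hc.inj 1 (L - 1) (by omega) (by omega) (h1.trans h2.symm)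
    omega
  · push Not at hex
    have : ∀ i, ∃ v, w i = some v := by
      intro i
      rcases hwi : w i with _ | v
      · exact absurd hwi (hex i)
      · exact ⟨v, rfl⟩
    choose u hu using this
    have hcyc : IsCyc G L u := by
      refine ⟨h3, ?_, ?_, ?_⟩
      · intro i
        have := hw.per i
        rw [hu, hu] at this
        exact Option.some.inj this
      · intro i
        have := hw.adj i
        rw [hu, hu] at this
        exact this
      · intro i j hi hj hij
        exact hw.inj i j hi hj (by rw [hu, hu, hij])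
    exact noShort_iff.1 hG L u hcyc

lemma card_edges_pend [Finite V] (v0 : V) :
    Nat.card G.edgeSet + 1 ≤ Nat.card (pend G v0).edgeSet := by
  classical
  have hf : ∀ e : G.edgeSet, Sym2.map some e.1 ∈ (pend G v0).edgeSet := by
    rintro ⟨e, he⟩
    induction e using Sym2.ind with
    | _ a b => exact he
  have hnew : s(none, some v0) ∈ (pend G v0).edgeSet := rfl
  let f : Option G.edgeSet → (pend G v0).edgeSet := fun o =>
    o.elim ⟨s(none, some v0), hnew⟩ (fun e => ⟨Sym2.map some e.1, hf e⟩)
  have hinj : Function.Injective f := by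
    have hne : ∀ e : G.edgeSet, Sym2.map some e.1 ≠ s(none, some v0) := by
      rintro ⟨e, he⟩
      induction e using Sym2.ind with
      | _ a b =>
        intro h
        simp only [Sym2.map_mk, Sym2.eq_iff] at h
        simp at h
    rintro (_ | e) (_ | e') h
    · rfl
    · exact absurd (congrArg Subtype.val h).symm (hne e')
    · exact absurd (congrArg Subtype.val h) (hne e)
    · have h1 := congrArg Subtype.val h
      have h2 : Sym2.map some e.1 = Sym2.map some e'.1 := h1
      rw [Subtype.ext (Sym2.map.injective (Option.some_injective V) h2)]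
  have h1 := Nat.card_le_card_of_injective f hinj
  rwa [Finite.card_option] at h1

lemma card_edges_subd' {V : Type*} [Fintype V] (G : SimpleGraph V) :
    2 * Nat.card G.edgeSet ≤ Nat.card (subd G).edgeSet := by
  classical
  have h1 : Nat.card G.Dart = 2 * Nat.card G.edgeSet := by
    rw [Nat.card_eq_fintype_card, Nat.card_eq_fintype_card, G.dart_card_eq_twice_card_edges,
      ← edgeFinset_card]
  rw [← h1]
  let f : G.Dart → (subd G).edgeSet := fun d =>
    ⟨s(Sum.inl d.fst, Sum.inr ⟨d.edge, d.edge_mem⟩), by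
      show d.fst ∈ d.edge
      exact Sym2.mem_mk_left _ _⟩
  apply Nat.card_le_card_of_injective f
  intro d d' hdd
  have h2 : s((Sum.inl d.fst : V ⊕ G.edgeSet), Sum.inr ⟨d.edge, d.edge_mem⟩) =
    s(Sum.inl d'.fst, Sum.inr ⟨d'.edge, d'.edge_mem⟩) := congrArg Subtype.val hdd
  rw [Sym2.eq_iff] at h2
  rcases h2 with ⟨h3, h4⟩ | ⟨h3, -⟩
  · have h5 : d.fst = d'.fst := Sum.inl_injective h3
    have h6 : d.edge = d'.edge := congrArg Subtype.val (Sum.inr_injective h4)
    have h7 : s(d.fst, d.snd) = s(d'.fst, d'.snd) := h6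
    rw [h5, Sym2.congr_right] at h7
    exact Dart.ext _ _ (Prod.ext h5 h7)
  · exact absurd h3 (by simp)

/-- There is a graph with `v` vertices, at least `e` edges and no cycle shorter than `g`. -/
def Gr (v e g : ℕ) : Prop := ∃ (U : Type) (_ : Fintype U) (H : SimpleGraph U),
  Fintype.card U = v ∧ e ≤ Nat.card H.edgeSet ∧ NoShort H g

lemma gr_maxEdges (n g : ℕ) : Gr n (maxEdges n g) g := by
  classical
  obtain ⟨H, hH, hc⟩ := exists_maxEdges n g
  refine ⟨Fin n, inferInstance, H, by rw [Fintype.card_fin], ?_, hH⟩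
  rw [Nat.card_eq_fintype_card, ← edgeFinset_card, hc]

lemma Gr.le_maxEdges {v e g : ℕ} (h : Gr v e g) : e ≤ maxEdges v g := by
  classical
  obtain ⟨U, hU, H, h1, h2, h3⟩ := h
  refine h2.trans ?_
  rw [Nat.card_eq_fintype_card, ← edgeFinset_card]
  exact card_edges_le_maxEdges' h3 h1.le

lemma maxEdges_succ {n g : ℕ} (hn : 1 ≤ n) : maxEdges n g + 1 ≤ maxEdges (n + 1) g := by
  classical
  obtain ⟨U, hU, H, h1, h2, h3⟩ := gr_maxEdges n g
  have hne : Nonempty U := by
    rw [← Fintype.card_pos_iff]; omega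
  obtain ⟨v0⟩ := hne
  apply Gr.le_maxEdges
  refine ⟨Option U, inferInstance, pend H v0, by rw [Fintype.card_option, h1], ?_,
    noShort_pend h3 v0⟩
  have := card_edges_pend (G := H) v0
  omega

lemma maxEdges_add {n g : ℕ} (hn : 1 ≤ n) (t : ℕ) : maxEdges n g + t ≤ maxEdges (n + t) g := by
  induction t with
  | zero => simp
  | succ t ih =>
    have := maxEdges_succ (n := n + t) (g := g) (by omega)
    have e : n + (t + 1) = n + t + 1 := by ring
    rw [e]; omega

/-- Exact bookkeeping of subdivisions. -/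
lemma subd_iter {N E γ : ℕ} (j : ℕ) {U : Type} [Fintype U] {H : SimpleGraph U}
    (h1 : Fintype.card U = N) (h2 : Nat.card H.edgeSet = E) (h3 : NoShort H γ) :
    ∃ (W : Type) (_ : Fintype W) (K : SimpleGraph W),
      Fintype.card W = N + (2 ^ j - 1) * E ∧ Nat.card K.edgeSet = 2 ^ j * E ∧
        NoShort K (2 ^ j * γ) := by
  classical
  induction j with
  | zero => exact ⟨U, inferInstance, H, by simp [h1], by rw [h2, pow_zero, one_mul],
      by rw [pow_zero, one_mul]; exact h3⟩
  | succ j ih =>
    obtain ⟨W, hW, K, k1, k2, k3⟩ := ih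
    refine ⟨W ⊕ K.edgeSet, inferInstance, subd K, ?_, ?_, ?_⟩
    · rw [Fintype.card_sum, k1, ← Nat.card_eq_fintype_card (α := K.edgeSet), k2]
      have e : 2 ^ (j + 1) - 1 = (2 ^ j - 1) + 2 ^ j := by
        have hp : 1 ≤ 2 ^ j := Nat.one_le_two_pow
        rw [pow_succ]; omega
      rw [e, add_mul]; ring
    · have e1 := card_edges_subd K
      have e2 := card_edges_subd' K
      have e3 : Nat.card (subd K).edgeSet = 2 * Nat.card K.edgeSet := by omega
      rw [e3, k2, pow_succ]; ring
    · have := noShort_subd k3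
      have e : 2 ^ (j + 1) * γ = 2 * (2 ^ j * γ) := by rw [pow_succ]; ring
      rw [e]; exact this

lemma maxEdges_subd {N n γ g : ℕ} (hN : 1 ≤ N) (j : ℕ)
    (hn : N + (2 ^ j - 1) * maxEdges N γ ≤ n) (hg : g ≤ 2 ^ j * γ) :
    n + maxEdges N γ ≤ maxEdges n g + N := by
  classical
  obtain ⟨H, hH, hc⟩ := exists_maxEdges N γ
  obtain ⟨W, hW, K, k1, k2, k3⟩ := subd_iter (N := N) (E := maxEdges N γ) (γ := γ) j (U := Fin N)
    (H := H) (by rw [Fintype.card_fin])
    (by rw [Nat.card_eq_fintype_card, ← edgeFinset_card, hc]) hH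
  have h1 : 2 ^ j * maxEdges N γ ≤ maxEdges (N + (2 ^ j - 1) * maxEdges N γ) g :=
    Gr.le_maxEdges ⟨W, hW, K, k1, k2.ge, NoShort.mono_g k3 hg⟩
  have h2 := maxEdges_add (g := g) (n := N + (2 ^ j - 1) * maxEdges N γ) (by omega)
    (n - (N + (2 ^ j - 1) * maxEdges N γ))
  have e : N + (2 ^ j - 1) * maxEdges N γ + (n - (N + (2 ^ j - 1) * maxEdges N γ)) = n := by omega
  rw [e] at h2
  have e2 : 2 ^ j * maxEdges N γ = (2 ^ j - 1) * maxEdges N γ + maxEdges N γ := by
    have hp : 1 ≤ 2 ^ j := Nat.one_le_two_pow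
    obtain ⟨q, hq⟩ : ∃ q, 2 ^ j = q + 1 := ⟨2 ^ j - 1, by omega⟩
    rw [hq, Nat.add_sub_cancel]; ring
  omega

end Pool.Agent.Helper64.Cyc
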