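import Pool.Agent.Helper64.Cyc.Tree
import Pool.Agent.Helper64.Cyc.ExLower

/-!
# The number of edges: upper bound
-/

namespace Pool.Agent.Helper64.Cyc

open SimpleGraph Finset Pool.Agent.Helper72.Cyc

lemma jensen_log {ι : Type*} {s : Finset ι} (hs : s.Nonempty) {a : ι → ℝ}
    (ha : ∀ i ∈ s, 0 < a i) :
    Real.log s.card + (1 / (s.card : ℝ)) * ∑ i ∈ s, Real.log (a i) ≤ Real.log (∑ i ∈ s, a i) := by
  have hc : (0 : ℝ) < s.card := by exact_mod_cast Finset.card_pos.2 hs
  have hA : 0 < ∑ i ∈ s, a i := Finset.sum_pos ha hs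
  set A := ∑ i ∈ s, a i with hAdef
  have h1 : ∀ i ∈ s, Real.log (a i) + Real.log s.card - Real.log A ≤ a i * (s.card / A) - 1 := by
    intro i hi
    have hai := ha i hi
    have h2 := Real.log_le_sub_one_of_pos (show 0 < a i * (s.card / A) by positivity)
    rw [Real.log_mul hai.ne' (by positivity), Real.log_div hc.ne' hA.ne'] at h2
    linarith
  have h2 := Finset.sum_le_sum h1
  rw [Finset.sum_sub_distrib, Finset.sum_sub_distrib, Finset.sum_add_distrib, ← Finset.sum_mul,
    ← hAdef, Finset.sum_const, Finset.sum_const, Finset.sum_const] at h2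
  simp only [nsmul_eq_mul, mul_one] at h2
  have h3 : A * (s.card / A) = s.card := by field_simp
  rw [h3] at h2
  have h4 : ∑ i ∈ s, Real.log (a i) ≤ s.card * (Real.log A - Real.log s.card) := by linarith
  have h5 : (1 / (s.card : ℝ)) * ∑ i ∈ s, Real.log (a i) ≤ Real.log A - Real.log s.card := by
    rw [one_div, inv_mul_le_iff₀ hc]
    exact h4
  linarith

section

variable {V : Type*} {G : SimpleGraph V} [Fintype V] [DecidableEq V] [DecidableRel G.Adj]

omit [DecidableEq V] in
lemma sum_pairs_swap (F : V → V → ℝ) :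
    ∑ y, ∑ x ∈ G.neighborFinset y, F x y = ∑ y, ∑ x ∈ G.neighborFinset y, F y x := by
  apply Finset.sum_comm'
  intro x y
  simp only [Finset.mem_univ, true_and, and_true, mem_neighborFinset]
  exact G.adj_comm x y

/-- Average logarithm of the tree size. -/
noncomputable def avgL (G : SimpleGraph V) [DecidableRel G.Adj] (k : ℕ) : ℝ :=
  ∑ y, ∑ x ∈ G.neighborFinset y, Real.log ((T G k x y).card : ℝ)

lemma avgL_succ {g k : ℕ} (hG : NoShort G g) (hd : ∀ v, 2 ≤ G.degree v)
    (hk : 2 * (k + 1) < g) :
    ∑ y, (G.degree y : ℝ) * Real.log ((G.degree y : ℝ) - 1) + avgL G k ≤ avgL G (k + 1) := by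
  have h1 : ∀ y, (G.degree y : ℝ) * Real.log ((G.degree y : ℝ) - 1) +
      ∑ z ∈ G.neighborFinset y, Real.log ((T G k y z).card : ℝ) ≤
      ∑ x ∈ G.neighborFinset y, Real.log ((T G (k + 1) x y).card : ℝ) := by
    intro y
    have hdy : (2 : ℝ) ≤ G.degree y := by exact_mod_cast hd y
    set c : ℝ := (G.degree y : ℝ) - 1 with hc
    have hc0 : 0 < c := by rw [hc]; linarith
    have h2 : ∀ x ∈ G.neighborFinset y, Real.log c +
        (1 / c) * (∑ z ∈ G.neighborFinset y, Real.log ((T G k y z).card : ℝ) -
          Real.log ((T G k y x).card : ℝ)) ≤ Real.log ((T G (k + 1) x y).card : ℝ) := by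
      intro x hx
      have hcard : (((G.neighborFinset y).erase x).card : ℝ) = c := by
        rw [Finset.card_erase_of_mem hx, G.card_neighborFinset_eq_degree, hc]
        rw [Nat.cast_sub (by have := hd y; omega)]
        simp
      have hne : ((G.neighborFinset y).erase x).Nonempty := by
        rw [← Finset.card_pos]
        have : (0 : ℝ) < (((G.neighborFinset y).erase x).card : ℝ) := by rw [hcard]; exact hc0
        exact_mod_cast this
      have h3 := jensen_log hne (a := fun z => ((T G k y z).card : ℝ)) (by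
        intro z hz
        have : 1 ≤ (T G k y z).card := one_le_card_T hG hd y z (by omega)
        exact_mod_cast this)
      rw [hcard, Finset.sum_erase_eq_sub hx] at h3
      refine h3.trans (le_of_eq ?_)
      rw [card_T_succ hG hk]
      push_cast
      rfl
    have h3 := Finset.sum_le_sum h2
    refine le_trans (le_of_eq ?_) h3
    rw [Finset.sum_add_distrib, ← Finset.mul_sum, Finset.sum_sub_distrib, Finset.sum_const,
      Finset.sum_const, G.card_neighborFinset_eq_degree]
    simp only [nsmul_eq_mul]
    have e : (G.degree y : ℝ) = c + 1 := by rw [hc]; ring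
    rw [e]
    field_simp
    ring
  have h2 := Finset.sum_le_sum (fun y (_ : y ∈ Finset.univ) => h1 y)
  rw [Finset.sum_add_distrib] at h2
  rw [← sum_pairs_swap (fun x y => Real.log ((T G k x y).card : ℝ))] at h2
  exact h2

lemma avgL_ge {g : ℕ} (hG : NoShort G g) (hd : ∀ v, 2 ≤ G.degree v) (k : ℕ) (hk : 2 * k < g) :
    k * ∑ y, (G.degree y : ℝ) * Real.log ((G.degree y : ℝ) - 1) ≤ avgL G k := by
  induction k with
  | zero =>
    have : avgL G 0 = 0 := by
      unfold avgL
      simp [T_zero]
    rw [this]; simp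
  | succ k ih =>
    have h1 := ih (by omega)
    have h2 := avgL_succ hG hd hk
    push_cast
    linarith

lemma deg_log {d : ℝ} (hd : 2 ≤ d) (hd' : d = 2 ∨ 3 ≤ d) :
    Real.log 2 * (d - 2) ≤ d * Real.log (d - 1) := by
  rcases hd' with h | h
  · rw [h]; norm_num
  · have h1 : Real.log 2 ≤ Real.log (d - 1) := Real.log_le_log (by norm_num) (by linarith)
    have h2 : 0 < Real.log 2 := Real.log_pos (by norm_num)
    nlinarith

lemma entropy_bound {g k K : ℕ} (hG : NoShort G g) (hd : ∀ v, 2 ≤ G.degree v)
    (hkK : k < K) (hK : 2 * K ≤ g) :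
    k * Real.log 2 * (G.edgeFinset.card - Fintype.card V) ≤
      G.edgeFinset.card * Real.log ((Fintype.card V : ℝ) / (K - k : ℕ)) := by
  have h1 := avgL_ge hG hd k (by omega)
  have hsum : ∑ y, (G.degree y : ℝ) = 2 * G.edgeFinset.card := by
    have := G.sum_degrees_eq_twice_card_edges
    exact_mod_cast this
  have h2 : Real.log 2 * (2 * G.edgeFinset.card - 2 * Fintype.card V) ≤
      ∑ y, (G.degree y : ℝ) * Real.log ((G.degree y : ℝ) - 1) := by
    have : ∑ y : V, Real.log 2 * ((G.degree y : ℝ) - 2) =
        Real.log 2 * (2 * G.edgeFinset.card - 2 * Fintype.card V) := by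
      rw [← Finset.mul_sum, Finset.sum_sub_distrib, hsum, Finset.sum_const, Finset.card_univ]
      simp only [nsmul_eq_mul]
      ring
    rw [← this]
    apply Finset.sum_le_sum
    intro y _
    apply deg_log
    · exact_mod_cast hd y
    · have := hd y
      rcases Nat.eq_or_lt_of_le this with h | h
      · left; exact_mod_cast h.symm
      · right; exact_mod_cast h
  have h3 : avgL G k ≤ 2 * G.edgeFinset.card * Real.log ((Fintype.card V : ℝ) / (K - k : ℕ)) := by
    unfold avgL
    have hKk : (0 : ℝ) < (K - k : ℕ) := by exact_mod_cast (by omega : 0 < K - k)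
    have h4 : ∀ y, ∑ x ∈ G.neighborFinset y, Real.log ((T G k x y).card : ℝ) ≤
        G.degree y * Real.log ((Fintype.card V : ℝ) / (K - k : ℕ)) := by
      intro y
      have : ∑ x ∈ G.neighborFinset y, Real.log ((Fintype.card V : ℝ) / (K - k : ℕ)) =
          G.degree y * Real.log ((Fintype.card V : ℝ) / (K - k : ℕ)) := by
        rw [Finset.sum_const, G.card_neighborFinset_eq_degree, nsmul_eq_mul]
      rw [← this]
      apply Finset.sum_le_sum
      intro x hx
      rw [mem_neighborFinset] at hx
      have hpos : 1 ≤ (T G k x y).card := one_le_card_T hG hd x y (by omega)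
      apply Real.log_le_log (by exact_mod_cast hpos)
      rw [le_div_iff₀ hKk]
      have := card_T_mul_le (k := k) hG hd hK hx.symm
      rw [mul_comm] at this
      exact_mod_cast this
    calc ∑ y, ∑ x ∈ G.neighborFinset y, Real.log ((T G k x y).card : ℝ)
        ≤ ∑ y, G.degree y * Real.log ((Fintype.card V : ℝ) / (K - k : ℕ)) :=
          Finset.sum_le_sum (fun y _ => h4 y)
      _ = _ := by rw [← Finset.sum_mul, hsum]
  have h5 : (k : ℝ) * (Real.log 2 * (2 * G.edgeFinset.card - 2 * Fintype.card V)) ≤
      2 * G.edgeFinset.card * Real.log ((Fintype.card V : ℝ) / (K - k : ℕ)) :=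
    (mul_le_mul_of_nonneg_left h2 (Nat.cast_nonneg _)).trans (h1.trans h3)
  linarith

end

/-- The excess of an extremal graph. -/
lemma excess_bound {g k K : ℕ} (hk : 1 ≤ k) (hkK : k < K) (hK : 2 * K ≤ g) (n : ℕ) :
    n + 1 ≤ maxEdges n g → k * Real.log 2 * ((maxEdges n g : ℝ) - n) ≤
      maxEdges n g * Real.log ((n : ℝ) / (K - k : ℕ)) := by
  classical
  induction n with
  | zero =>
    intro h
    exfalso
    have := maxEdges_le_moore (g := g) (k := 1) le_rfl (by omega) 0
    have h2 : ((0 + 1 : ℕ) : ℝ) ≤ maxEdges 0 g := by exact_mod_cast h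
    simp at this h2
    linarith
  | succ n ih =>
    intro h
    obtain ⟨G, hG, hcard⟩ := exists_maxEdges (n + 1) g
    by_cases hd : ∀ v, 2 ≤ G.degree v
    · have := entropy_bound hG hd hkK hK
      rw [hcard, Fintype.card_fin] at this
      exact this
    · push Not at hd
      obtain ⟨v, hv⟩ := hd
      have h2 : (G.induce {v}ᶜ).edgeFinset.card = G.edgeFinset.card - G.degree v :=
        by rw [card_edgeFinset_induce_compl_singleton, card_edgeFinset_deleteIncidenceSet]
      have h3 : (G.induce {v}ᶜ).edgeFinset.card ≤ maxEdges n g := by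
        apply card_edges_le_maxEdges
        · exact hG.comap Subtype.val Subtype.val_injective (fun a b hab => hab)
        · rw [Fintype.card_compl_set, Fintype.card_fin]; simp
      have h4 : maxEdges (n + 1) g ≤ maxEdges n g + 1 := by omega
      have h5 : n + 1 ≤ maxEdges n g := by omega
      have hn1 : 1 ≤ n := by
        by_contra hlt
        have hn0 : n = 0 := by omega
        subst hn0
        have := maxEdges_le_moore (g := g) (k := 1) le_rfl (by omega) 0
        have h2 : ((0 + 1 : ℕ) : ℝ) ≤ maxEdges 0 g := by exact_mod_cast h5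
        simp at this h2
        linarith
      have h6 := maxEdges_succ (n := n) (g := g) hn1
      have h7 : maxEdges (n + 1) g = maxEdges n g + 1 := by omega
      have h8 := ih h5
      have hlog2 : 0 < Real.log 2 := Real.log_pos (by norm_num)
      have hk0 : (1 : ℝ) ≤ k := by exact_mod_cast hk
      have hKk : (0 : ℝ) < (K - k : ℕ) := by exact_mod_cast (by omega : 0 < K - k)
      have hexc : (1 : ℝ) ≤ (maxEdges n g : ℝ) - n := by
        have : ((n + 1 : ℕ) : ℝ) ≤ maxEdges n g := by exact_mod_cast h5
        push_cast at this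
        linarith
      have hE0 : (0 : ℝ) < maxEdges n g := by
        have : (0 : ℝ) ≤ n := Nat.cast_nonneg n
        linarith
      have hlogpos : 0 < Real.log ((n : ℝ) / (K - k : ℕ)) := by
        by_contra hcon
        push Not at hcon
        have h9 : (0 : ℝ) < k * Real.log 2 * ((maxEdges n g : ℝ) - n) := by positivity
        have h10 : (maxEdges n g : ℝ) * Real.log ((n : ℝ) / (K - k : ℕ)) ≤ 0 :=
          mul_nonpos_of_nonneg_of_nonpos hE0.le hcon
        linarith
      have hlogmono : Real.log ((n : ℝ) / (K - k : ℕ)) ≤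
          Real.log (((n + 1 : ℕ) : ℝ) / (K - k : ℕ)) := by
        apply Real.log_le_log
        · have : (1 : ℝ) ≤ n := by exact_mod_cast hn1
          positivity
        · apply div_le_div_of_nonneg_right _ hKk.le
          push_cast; linarith
      rw [h7]
      push_cast
      have e : ((maxEdges n g : ℝ) + 1) - (n + 1) = (maxEdges n g : ℝ) - n := by ring
      rw [e]
      calc k * Real.log 2 * ((maxEdges n g : ℝ) - n)
          ≤ maxEdges n g * Real.log ((n : ℝ) / (K - k : ℕ)) := h8
        _ ≤ (maxEdges n g + 1) * Real.log (((n + 1 : ℕ) : ℝ) / (K - k : ℕ)) := by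
            apply mul_le_mul (by linarith) hlogmono hlogpos.le (by linarith)
        _ = _ := by push_cast; rfl

end Pool.Agent.Helper64.Cyc
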