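import Pool.Agent.Helper64.Cyc.Final
import Pool.Agent.Helper64.Cyc.ExUpper

/-!
# The uniform order of the logarithm of the number of edges per vertex
-/

namespace Pool.Agent.Helper64.Cyc

open SimpleGraph Finset Pool.Agent.Helper72.Cyc

lemma ex_lower_large : ∃ a' : ℝ, 0 < a' ∧ ∃ K : ℕ, 2 ≤ K ∧
    ∀ g n : ℕ, 3 ≤ g → K * g ≤ n →
      a' * ((n : ℝ) / g) * Real.log ((n : ℝ) / g) ≤ n * Real.log ((maxEdges n g : ℝ) / n) := by
  apply lower_shape (Φ := fun n g => n * Real.log ((maxEdges n g : ℝ) / n)) (B := 17) (by norm_num)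
  · intro D n g hg hBD hn
    have hD16 : (16 : ℝ) ≤ D := by exact_mod_cast hBD
    have hn0 : 0 < n := by
      have : 0 < (D + 1) ^ g := Nat.pow_pos (by omega)
      omega
    have hn0R : (0 : ℝ) < n := by exact_mod_cast hn0
    have hES := erdos_sachs (by omega) hn
    have h1 : (D : ℝ) / 4 ≤ (maxEdges n g : ℝ) / n := by
      rw [div_le_div_iff₀ (by norm_num) hn0R]
      have : ((D * n : ℕ) : ℝ) ≤ ((4 * maxEdges n g : ℕ) : ℝ) := by exact_mod_cast hES
      push_cast at this
      linarith
    have h2 := log_half (a := 1) one_pos (D := D) (by norm_num; exact_mod_cast hBD) (by linarith)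
    rw [one_mul] at h2
    have h3 : Real.log ((D : ℝ) / 4) ≤ Real.log ((maxEdges n g : ℝ) / n) :=
      Real.log_le_log (by positivity) h1
    exact mul_le_mul_of_nonneg_left (h2.trans h3) hn0R.le
  · intro n g hg hsp hx3
    obtain ⟨γ, j, h3γ, hbound, hjs, hnP⟩ := sparse_params (B := 17) (by norm_num) hg hsp hx3
    refine ⟨γ, ?_, hnP⟩
    set N := 2 * 17 ^ γ with hN
    have hN1 : 1 ≤ N := by
      have : 0 < 17 ^ γ := Nat.pow_pos (by norm_num)
      omega
    have h1 := maxEdges_subd hN1 j hbound hjs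
    have hES := erdos_sachs (g := γ) (D := 16) (m := N) (by omega) (by rw [hN])
    have h2 : n + N ≤ maxEdges n g := by omega
    have hNn : N ≤ n := by
      have : N ≤ N + (2 ^ j - 1) * maxEdges N γ := Nat.le_add_right _ _
      omega
    have hn0 : (0 : ℝ) < n := by exact_mod_cast (by omega : 0 < n)
    have hN0 : (0 : ℝ) < N := by exact_mod_cast hN1
    have hNnR : (N : ℝ) ≤ n := by exact_mod_cast hNn
    have h3 : 1 + (N : ℝ) / n ≤ (maxEdges n g : ℝ) / n := by
      rw [le_div_iff₀ hn0, add_mul, one_mul, div_mul_cancel₀ _ hn0.ne']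
      exact_mod_cast h2
    have h4 : (N : ℝ) / n / 2 ≤ Real.log (1 + (N : ℝ) / n) := by
      have ht0 : 0 < (N : ℝ) / n := by positivity
      have ht1 : (N : ℝ) / n ≤ 1 := by rw [div_le_one hn0]; exact hNnR
      have h5 := Real.one_sub_inv_le_log_of_pos (show 0 < 1 + (N : ℝ) / n by positivity)
      refine le_trans ?_ h5
      set t := (N : ℝ) / n with ht
      have h6 : 1 - (1 + t)⁻¹ = t / (1 + t) := by field_simp; ring
      rw [h6]
      exact div_le_div_of_nonneg_left ht0.le (by linarith) (by linarith)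
    have h5 : (N : ℝ) / n / 2 ≤ Real.log ((maxEdges n g : ℝ) / n) :=
      h4.trans (Real.log_le_log (by positivity) h3)
    have h6 : (n : ℝ) * ((N : ℝ) / n / 2) = ((17 : ℕ) : ℝ) ^ γ := by
      have : (N : ℝ) = 2 * ((17 : ℕ) : ℝ) ^ γ := by rw [hN]; push_cast; ring
      rw [← mul_div_assoc, mul_div_cancel₀ _ hn0.ne', this]
      ring
    rw [← h6]
    exact mul_le_mul_of_nonneg_left h5 hn0.le

/-- The theta graph has more edges than vertices. -/
lemma card_edges_theta {n m k : ℕ} (hk : 1 ≤ k) (hmn : m ≤ n) (hm : 3 ≤ m)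
    (hkn : k + 3 ≤ n) : n + 1 ≤ Nat.card (pathCh n (thC m k n)).edgeSet := by
  classical
  have hP : ∀ i : Fin (n + 1), ∃ e : (pathCh n (thC m k n)).edgeSet,
      (∀ h : i.val + 1 < n, e.1 = s((⟨i.val, by omega⟩ : Fin n), ⟨i.val + 1, h⟩)) ∧
      (i.val + 1 = n → e.1 = s((⟨0, by omega⟩ : Fin n), ⟨m - 1, by omega⟩)) ∧
      (i.val = n → e.1 = s((⟨k, by omega⟩ : Fin n), ⟨n - 1, by omega⟩)) := by
    intro i
    rcases Nat.lt_or_ge (i.val + 1) n with h | h
    · refine ⟨⟨s((⟨i.val, by omega⟩ : Fin n), ⟨i.val + 1, h⟩), ?_⟩, fun _ => rfl, by omega, by omega⟩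
      rw [mem_edgeSet, pathCh_adj]
      refine ⟨?_, Or.inl (Or.inl rfl)⟩
      intro he
      have := congrArg Fin.val he
      simp only at this
      omega
    · rcases Nat.eq_or_lt_of_le h with h' | h'
      · refine ⟨⟨s((⟨0, by omega⟩ : Fin n), ⟨m - 1, by omega⟩), ?_⟩, by omega, fun _ => rfl, by omega⟩
        rw [mem_edgeSet, pathCh_adj]
        refine ⟨?_, Or.inl (Or.inr (Or.inl ⟨rfl, rfl⟩))⟩
        intro he
        have := congrArg Fin.val he
        simp only at this
        omega
      · refine ⟨⟨s((⟨k, by omega⟩ : Fin n), ⟨n - 1, by omega⟩), ?_⟩, by omega, by omega, fun _ => rfl⟩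
        rw [mem_edgeSet, pathCh_adj]
        refine ⟨?_, Or.inl (Or.inr (Or.inr ⟨rfl, rfl⟩))⟩
        intro he
        have := congrArg Fin.val he
        simp only at this
        omega
  choose f hf1 hf2 hf3 using hP
  have hinj : Function.Injective f := by
    intro i j hij
    have hv : (f i).1 = (f j).1 := congrArg Subtype.val hij
    have hcase : ∀ i : Fin (n + 1), i.val + 1 < n ∨ i.val + 1 = n ∨ i.val = n := by
      intro i; have := i.2; omega
    have key : ∀ a b c d : Fin n, s(a, b) = s(c, d) →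
        (a.val = c.val ∧ b.val = d.val) ∨ (a.val = d.val ∧ b.val = c.val) := by
      intro a b c d h
      rw [Sym2.eq_iff] at h
      rcases h with ⟨h1, h2⟩ | ⟨h1, h2⟩
      · left; rw [h1, h2]; exact ⟨rfl, rfl⟩
      · right; rw [h1, h2]; exact ⟨rfl, rfl⟩
    rcases hcase i with h1 | h1 | h1 <;> rcases hcase j with h2 | h2 | h2
    · rw [hf1 i h1, hf1 j h2] at hv
      have := key _ _ _ _ hv
      simp only at this
      apply Fin.ext; omega
    · rw [hf1 i h1, hf2 j h2] at hv
      have := key _ _ _ _ hv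
      simp only at this
      exfalso; omega
    · rw [hf1 i h1, hf3 j h2] at hv
      have := key _ _ _ _ hv
      simp only at this
      exfalso; omega
    · rw [hf2 i h1, hf1 j h2] at hv
      have := key _ _ _ _ hv
      simp only at this
      exfalso; omega
    · apply Fin.ext; omega
    · rw [hf2 i h1, hf3 j h2] at hv
      have := key _ _ _ _ hv
      simp only at this
      exfalso; omega
    · rw [hf3 i h1, hf1 j h2] at hv
      have := key _ _ _ _ hv
      simp only at this
      exfalso; omega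
    · rw [hf3 i h1, hf2 j h2] at hv
      have := key _ _ _ _ hv
      simp only at this
      exfalso; omega
    · apply Fin.ext; omega
  have := Nat.card_le_card_of_injective f hinj
  rwa [Nat.card_eq_fintype_card, Fintype.card_fin] at this

lemma succ_le_maxEdges {n g : ℕ} (hg : 3 ≤ g) (hn : 3 * g ≤ 2 * n + 2) :
    n + 1 ≤ maxEdges n g := by
  set p := (g + 1) / 2 with hp
  set r := g / 2 with hr
  have hpr : p + r = g := by omega
  have h1 := noShort_theta (g := g) (n := p + p + r - 1) (m := p + p) (k := p - 1)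
    (by omega) (by omega) (by omega) (by omega) (by omega) (by omega) (by omega)
  have h2 := card_edges_theta (n := p + p + r - 1) (m := p + p) (k := p - 1)
    (by omega) (by omega) (by omega) (by omega)
  have h3 : p + p + r - 1 + 1 ≤ maxEdges (p + p + r - 1) g :=
    Gr.le_maxEdges ⟨Fin (p + p + r - 1), inferInstance, _, by rw [Fintype.card_fin], h2, h1⟩
  have h4 := maxEdges_add (n := p + p + r - 1) (g := g) (by omega) (n - (p + p + r - 1))
  have e : p + p + r - 1 + (n - (p + p + r - 1)) = n := by omega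
  rw [e] at h4
  omega

lemma ex_lower_all : ∃ α : ℝ, 0 < α ∧ ∀ g n : ℕ, 3 ≤ g → 3 * g ≤ 2 * n + 2 →
      α * ((n : ℝ) / g) * Real.log ((n : ℝ) / g) ≤ n * Real.log ((maxEdges n g : ℝ) / n) := by
  obtain ⟨a', ha', K, hK2, hK⟩ := ex_lower_large
  have hKR : (2 : ℝ) ≤ K := by exact_mod_cast hK2
  have hlogK : 0 < Real.log K := Real.log_pos (by linarith)
  refine ⟨min a' (1 / 2 / (K * Real.log K)), by positivity, ?_⟩
  intro g n hg hn
  have hx := quot_ge hg hn
  have hg0 : (0 : ℝ) < g := by exact_mod_cast (by omega : 0 < g)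
  have hn1 : (1 : ℝ) ≤ n := by exact_mod_cast (by omega : 1 ≤ n)
  set x : ℝ := (n : ℝ) / g with hxdef
  have hx0 : 0 < x := by linarith
  have hlx : 0 ≤ Real.log x := Real.log_nonneg (by linarith)
  rcases Nat.lt_or_ge n (K * g) with hlt | hge
  · have h2 := succ_le_maxEdges hg hn
    have h3 : 1 + 1 / (n : ℝ) ≤ (maxEdges n g : ℝ) / n := by
      rw [le_div_iff₀ (by linarith), add_mul, one_mul, div_mul_cancel₀ _ (by linarith)]
      exact_mod_cast h2
    have h4 : 1 / 2 ≤ n * Real.log ((maxEdges n g : ℝ) / n) := by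
      have h5 := Real.one_sub_inv_le_log_of_pos (show 0 < 1 + 1 / (n : ℝ) by positivity)
      have h6 : Real.log (1 + 1 / (n : ℝ)) ≤ Real.log ((maxEdges n g : ℝ) / n) :=
        Real.log_le_log (by positivity) h3
      have h7 : 1 - (1 + 1 / (n : ℝ))⁻¹ = 1 / (n + 1) := by field_simp; ring
      rw [h7] at h5
      have h8 : (1 : ℝ) / 2 ≤ n * (1 / (n + 1)) := by
        rw [mul_one_div, div_le_div_iff₀ (by norm_num) (by linarith)]
        linarith
      exact h8.trans (mul_le_mul_of_nonneg_left (h5.trans h6) (by linarith))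
    have hxK : x ≤ K := by
      rw [hxdef, div_le_iff₀ hg0]
      exact_mod_cast hlt.le
    calc min a' (1 / 2 / (K * Real.log K)) * x * Real.log x
        ≤ 1 / 2 / (K * Real.log K) * x * Real.log x := by
          apply mul_le_mul_of_nonneg_right _ hlx
          exact mul_le_mul_of_nonneg_right (min_le_right _ _) hx0.le
      _ ≤ 1 / 2 / (K * Real.log K) * K * Real.log K := by
          rw [mul_assoc, mul_assoc]
          apply mul_le_mul_of_nonneg_left _ (by positivity)
          exact mul_le_mul hxK (Real.log_le_log hx0 hxK) hlx (by positivity)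
      _ = 1 / 2 := by
          have : (K : ℝ) * Real.log K ≠ 0 := by positivity
          field_simp
      _ ≤ _ := h4
  · refine le_trans ?_ (hK g n hg hge)
    apply mul_le_mul_of_nonneg_right _ hlx
    exact mul_le_mul_of_nonneg_right (min_le_left _ _) hx0.le

lemma ex_upper_all : ∃ β : ℝ, 0 < β ∧ ∀ g n : ℕ, 3 ≤ g → 3 * g ≤ 2 * n + 2 →
      n * Real.log ((maxEdges n g : ℝ) / n) ≤ β * ((n : ℝ) / g) * Real.log ((n : ℝ) / g) := by
  have h76 : 0 < Real.log (7 / 6) := Real.log_pos (by norm_num)
  have hl2 : 0 < Real.log 2 := Real.log_pos (by norm_num)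
  have hl4 : 0 < Real.log 4 := Real.log_pos (by norm_num)
  have hl8 : 0 < Real.log 8 := Real.log_pos (by norm_num)
  have hl64 : 0 < Real.log 64 := Real.log_pos (by norm_num)
  set β1 : ℝ := 8 * (Real.log 64 / Real.log (7 / 6) + 2) with hβ1
  set β2 : ℝ := 16 * (Real.log 4 / Real.log (7 / 6)) with hβ2
  set β3 : ℝ := 32 / Real.log 2 * (Real.log 8 / Real.log (7 / 6) + 1) with hβ3
  have hβ1p : 0 < β1 := by positivity
  have hβ2p : 0 < β2 := by positivity
  have hβ3p : 0 < β3 := by positivity
  refine ⟨β1 + β2 + β3, by positivity, ?_⟩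
  intro g n hg hn
  have hx := quot_ge hg hn
  have hg0 : (0 : ℝ) < g := by exact_mod_cast (by omega : 0 < g)
  have hn1 : (1 : ℝ) ≤ n := by exact_mod_cast (by omega : 1 ≤ n)
  have hn0 : (0 : ℝ) < n := by linarith
  have hE1 := succ_le_maxEdges hg hn
  set E := maxEdges n g with hE
  have hE1R : (n : ℝ) + 1 ≤ E := by exact_mod_cast hE1
  have hEpos : (0 : ℝ) < E := by linarith
  set x : ℝ := (n : ℝ) / g with hxdef
  have hx0 : 0 < x := by linarith
  have hlx7 : Real.log (7 / 6) ≤ Real.log x := Real.log_le_log (by norm_num) hx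
  have hlx : 0 < Real.log x := by linarith
  have hnx : (n : ℝ) = g * x := by rw [hxdef]; field_simp
  have hfin : ∀ β : ℝ, 0 ≤ β → β ≤ β1 + β2 + β3 → n * Real.log ((E : ℝ) / n) ≤ β * x * Real.log x →
      n * Real.log ((E : ℝ) / n) ≤ (β1 + β2 + β3) * x * Real.log x := by
    intro β _ hβ h
    refine h.trans ?_
    apply mul_le_mul_of_nonneg_right _ hlx.le
    exact mul_le_mul_of_nonneg_right hβ hx0.le
  rcases Nat.lt_or_ge (4 * n) E with hd | hs
  · -- dense: Moore bound
    apply hfin β1 hβ1p.le (by linarith)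
    set k := (g - 1) / 2 with hk
    have hk1 : 1 ≤ k := by omega
    have hk0 : (0 : ℝ) < k := by exact_mod_cast hk1
    have hgk : (g : ℝ) ≤ 4 * k := by exact_mod_cast (by omega : g ≤ 4 * k)
    have hm := maxEdges_le_moore (g := g) hk1 (by omega) n
    rw [← hE] at hm
    have hdR : 4 * (n : ℝ) < E := by exact_mod_cast hd
    have h4 : 3 ≤ (n : ℝ) ^ ((1 : ℝ) / k) := by
      by_contra hcon
      push Not at hcon
      have : (n : ℝ) * ((n : ℝ) ^ ((1 : ℝ) / k) + 1) ≤ n * 4 :=
        mul_le_mul_of_nonneg_left (by linarith) hn0.le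
      linarith
    have hpow : 0 < (n : ℝ) ^ ((1 : ℝ) / k) := by linarith
    have hlogp : Real.log ((n : ℝ) ^ ((1 : ℝ) / k)) = Real.log n / k := by
      rw [Real.log_rpow hn0]; ring
    have hlog1 : 1 ≤ Real.log n / k := by
      rw [← hlogp]
      have h5 : Real.log 3 ≤ Real.log ((n : ℝ) ^ ((1 : ℝ) / k)) := Real.log_le_log (by norm_num) h4
      have h6 : 1 ≤ Real.log 3 := by
        rw [Real.le_log_iff_exp_le (by norm_num)]
        have := Real.exp_one_lt_d9
        linarith
      linarith
    have h5 : Real.log ((E : ℝ) / n) ≤ 2 * (Real.log n / k) := by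
      have h6 : (E : ℝ) / n ≤ ((n : ℝ) ^ ((1 : ℝ) / k)) ^ 2 := by
        rw [div_le_iff₀ hn0]
        nlinarith
      have h7 := Real.log_le_log (by positivity) h6
      rw [Real.log_pow, hlogp] at h7
      push_cast at h7
      exact h7
    have h6 : (k : ℝ) ≤ Real.log n := by
      rw [le_div_iff₀ hk0, one_mul] at hlog1
      exact hlog1
    have hlogn : 0 < Real.log n := by linarith
    -- n ≤ 64 x^2
    have h7 : (n : ℝ) ≤ 64 * x ^ 2 := by
      have h8 : Real.log n ≤ 2 * Real.sqrt n := by
        have h9 := Real.log_le_sub_one_of_pos (Real.sqrt_pos.2 hn0)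
        rw [Real.log_sqrt hn0.le] at h9
        have := Real.sqrt_nonneg (n : ℝ)
        linarith
      have h10 : (g : ℝ) ≤ 8 * Real.sqrt n := by linarith
      have h11 : (g : ℝ) ^ 2 ≤ 64 * n := by
        have h12 : (g : ℝ) ^ 2 ≤ (8 * Real.sqrt n) ^ 2 := pow_le_pow_left₀ hg0.le h10 2
        rw [mul_pow, Real.sq_sqrt hn0.le] at h12
        linarith
      have h12 : (n : ℝ) * (g : ℝ) ^ 2 ≤ 64 * (n : ℝ) ^ 2 := by nlinarith
      rw [hxdef, div_pow, ← mul_div_assoc, le_div_iff₀ (by positivity)]
      exact h12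
    have h8 : Real.log n ≤ (Real.log 64 / Real.log (7 / 6) + 2) * Real.log x := by
      have h9 := Real.log_le_log hn0 h7
      rw [Real.log_mul (by norm_num) (by positivity), Real.log_pow] at h9
      push_cast at h9
      have h10 : Real.log 64 ≤ Real.log 64 / Real.log (7 / 6) * Real.log x := by
        rw [div_mul_eq_mul_div, le_div_iff₀ h76]
        exact mul_le_mul_of_nonneg_left hlx7 hl64.le
      linarith
    calc n * Real.log ((E : ℝ) / n) ≤ n * (2 * (Real.log n / k)) :=
          mul_le_mul_of_nonneg_left h5 hn0.le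
      _ ≤ 8 * x * Real.log n := by
          have h9 : Real.log n / k ≤ 4 * Real.log n / g := by
            rw [div_le_div_iff₀ hk0 hg0]
            nlinarith
          calc (n : ℝ) * (2 * (Real.log n / k)) ≤ n * (2 * (4 * Real.log n / g)) := by
                apply mul_le_mul_of_nonneg_left _ hn0.le
                linarith
            _ = _ := by rw [hxdef]; field_simp; ring
      _ ≤ 8 * x * ((Real.log 64 / Real.log (7 / 6) + 2) * Real.log x) :=
          mul_le_mul_of_nonneg_left h8 (by positivity)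
      _ = β1 * x * Real.log x := by rw [hβ1]; ring
  · have hsR : (E : ℝ) ≤ 4 * n := by exact_mod_cast hs
    rcases Nat.lt_or_ge g 17 with hg16 | hg17
    · apply hfin β2 hβ2p.le (by linarith)
      have hg16R : (g : ℝ) ≤ 16 := by exact_mod_cast (by omega : g ≤ 16)
      have h1 : Real.log ((E : ℝ) / n) ≤ Real.log 4 := by
        apply Real.log_le_log (by positivity)
        rw [div_le_iff₀ hn0]; exact hsR
      have h2 : Real.log 4 ≤ Real.log 4 / Real.log (7 / 6) * Real.log x := by
        rw [div_mul_eq_mul_div, le_div_iff₀ h76]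
        exact mul_le_mul_of_nonneg_left hlx7 hl4.le
      calc n * Real.log ((E : ℝ) / n) ≤ n * (Real.log 4 / Real.log (7 / 6) * Real.log x) :=
            mul_le_mul_of_nonneg_left (h1.trans h2) hn0.le
        _ = g * x * (Real.log 4 / Real.log (7 / 6) * Real.log x) := by rw [hnx]
        _ ≤ 16 * x * (Real.log 4 / Real.log (7 / 6) * Real.log x) := by
            apply mul_le_mul_of_nonneg_right _ (by positivity)
            exact mul_le_mul_of_nonneg_right hg16R hx0.le
        _ = β2 * x * Real.log x := by rw [hβ2]; ring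
    · apply hfin β3 hβ3p.le (by linarith)
      set K := g / 2 with hK
      set k := g / 4 with hk
      have hk1 : 1 ≤ k := by omega
      have hkK : k < K := by omega
      have h1 := excess_bound hk1 hkK (by omega) n hE1
      rw [← hE] at h1
      have hk8 : (g : ℝ) ≤ 8 * k := by exact_mod_cast (by omega : g ≤ 8 * k)
      have hKk8 : (g : ℝ) ≤ 8 * (K - k : ℕ) := by exact_mod_cast (by omega : g ≤ 8 * (K - k))
      have hKk0 : (0 : ℝ) < (K - k : ℕ) := by exact_mod_cast (by omega : 0 < K - k)
      have h2 : (n : ℝ) / (K - k : ℕ) ≤ 8 * x := by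
        rw [hxdef, ← mul_div_assoc, div_le_div_iff₀ hKk0 hg0]
        nlinarith
      have h3 : Real.log ((n : ℝ) / (K - k : ℕ)) ≤ Real.log 8 + Real.log x := by
        rw [← Real.log_mul (by norm_num) hx0.ne']
        exact Real.log_le_log (by positivity) h2
      have h4 : Real.log 8 ≤ Real.log 8 / Real.log (7 / 6) * Real.log x := by
        rw [div_mul_eq_mul_div, le_div_iff₀ h76]
        exact mul_le_mul_of_nonneg_left hlx7 hl8.le
      set Lg := (Real.log 8 / Real.log (7 / 6) + 1) * Real.log x with hLg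
      have hLg0 : 0 < Lg := by positivity
      have h5 : Real.log ((n : ℝ) / (K - k : ℕ)) ≤ Lg := by rw [hLg]; linarith
      have h6 : (k : ℝ) * Real.log 2 * (E - n) ≤ 4 * n * Lg :=
        h1.trans ((mul_le_mul_of_nonneg_left h5 hEpos.le).trans
          (mul_le_mul_of_nonneg_right hsR hLg0.le))
      have h7 : (g : ℝ) * (Real.log 2 * (E - n)) ≤ 32 * n * Lg := by
        have h8 : 0 < Real.log 2 * ((E : ℝ) - n) := mul_pos hl2 (by linarith)
        have h9 : (g : ℝ) * (Real.log 2 * (E - n)) ≤ 8 * k * (Real.log 2 * (E - n)) :=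
          mul_le_mul_of_nonneg_right hk8 h8.le
        linarith
      have h8 : (E : ℝ) - n ≤ 32 / Real.log 2 * x * Lg := by
        have h9 : (E : ℝ) - n ≤ 32 * n * Lg / (g * Real.log 2) := by
          rw [le_div_iff₀ (by positivity)]
          linarith
        refine h9.trans (le_of_eq ?_)
        rw [hxdef]; field_simp
      have h9 : n * Real.log ((E : ℝ) / n) ≤ E - n := by
        have h10 := Real.log_le_sub_one_of_pos (show 0 < (E : ℝ) / n by positivity)
        have h11 := mul_le_mul_of_nonneg_left h10 hn0.le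
        refine h11.trans (le_of_eq ?_)
        field_simp
      calc n * Real.log ((E : ℝ) / n) ≤ E - n := h9
        _ ≤ 32 / Real.log 2 * x * Lg := h8
        _ = β3 * x * Real.log x := by rw [hβ3, hLg]; ring

end Pool.Agent.Helper64.Cyc
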