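import Pool.Agent.Helper64.Cyc.ExFinal

/-!
# The number of edges for few vertices
-/

namespace Pool.Agent.Helper64.Cyc

open SimpleGraph Finset Pool.Agent.Helper72.Cyc

lemma card_edges_of_acyclic {V : Type*} [Fintype V] [Nonempty V] {H : SimpleGraph V}
    [Fintype H.edgeSet] (hH : H.IsAcyclic) : H.edgeFinset.card + 1 ≤ Fintype.card V := by
  classical
  obtain ⟨T, hHT, -, hT⟩ := (connected_top (V := V)).exists_isTree_le_of_le_of_isAcyclic
    (le_top (a := H)) hH
  have h1 := hT.card_edgeFinset
  have h2 : H.edgeFinset ⊆ T.edgeFinset := by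
    intro e he
    rw [mem_edgeFinset] at he ⊢
    exact edgeSet_mono hHT he
  have := Finset.card_le_card h2
  omega

lemma exists_isCyc_of_not_acyclic {V : Type*} {H : SimpleGraph V} (hH : ¬ H.IsAcyclic) :
    ∃ L u, IsCyc H L u := by
  unfold IsAcyclic at hH
  push Not at hH
  obtain ⟨a, w, hw⟩ := hH
  have h3 := hw.three_le_length
  obtain ⟨m, hm⟩ : ∃ m, w.length = m + 3 := ⟨w.length - 3, by omega⟩
  have hc : cycleGraph (m + 3) ⊑ H := by
    rw [cycleGraph_isContained_iff (by omega)]
    exact ⟨a, w, hw, hm⟩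
  obtain ⟨c⟩ := hc
  exact ⟨_, _, isCyc_of_copy c⟩

lemma IsCyc.mono {V : Type*} {G H : SimpleGraph V} {L : ℕ} {u : ℕ → V} (h : IsCyc H L u)
    (hle : H ≤ G) : IsCyc G L u := ⟨h.three, h.per, fun i => hle (h.adj i), h.inj⟩

lemma maxEdges_le_self {n g : ℕ} (hn : 2 * n + 2 < 3 * g) : maxEdges n g ≤ n := by
  classical
  by_contra hlt
  push Not at hlt
  obtain ⟨G, hG, hcard⟩ := exists_maxEdges n g
  rcases Nat.eq_zero_or_pos n with h0 | hpos
  · subst h0
    have h1 := G.sum_degrees_eq_twice_card_edges
    rw [Finset.univ_eq_empty, Finset.sum_empty] at h1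
    omega
  have : Nonempty (Fin n) := ⟨⟨0, hpos⟩⟩
  have hna : ¬ G.IsAcyclic := by
    intro h
    have := card_edges_of_acyclic h
    rw [Fintype.card_fin] at this
    omega
  obtain ⟨L, u, hu⟩ := exists_isCyc_of_not_acyclic hna
  set e := s(u 0, u (0 + 1)) with he
  have heG : e ∈ G.edgeSet := hu.adj 0
  set H := G.deleteEdges {e} with hH
  have hHG : H ≤ G := G.deleteEdges_le _
  have hHcard : n ≤ H.edgeFinset.card := by
    have h1 : H.edgeFinset = G.edgeFinset.erase e := by
      ext f
      rw [mem_edgeFinset, Finset.mem_erase, mem_edgeFinset, hH, edgeSet_deleteEdges]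
      simp [and_comm]
    rw [h1, Finset.card_erase_of_mem (mem_edgeFinset.2 heG)]
    omega
  have hna' : ¬ H.IsAcyclic := by
    intro h
    have := card_edges_of_acyclic h
    rw [Fintype.card_fin] at this
    omega
  obtain ⟨L', w, hw⟩ := exists_isCyc_of_not_acyclic hna'
  have hne : cpar L u ≠ cpar L' w := by
    intro h
    have h1 := congrFun h e
    rw [hu.cpar_apply, hw.cpar_apply, if_pos ⟨0, by have := hu.three; omega, rfl⟩, if_neg] at h1
    · exact absurd h1 one_ne_zero
    · rintro ⟨i, -, hi⟩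
      have h2 : s(w i, w (i + 1)) ∈ H.edgeSet := hw.adj i
      rw [← hi, hH, edgeSet_deleteEdges] at h2
      exact h2.2 rfl
  have := two_cycles_bound hG hu (hw.mono hHG) hne
  rw [Fintype.card_fin] at this
  omega

lemma self_le_maxEdges {n g : ℕ} (hg : 3 ≤ g) (hn : g ≤ n) : n ≤ maxEdges n g := by
  classical
  have h1 := NoShort.mono_g (noShort_ring (n := n) (by omega)) hn
  have h2 : n ≤ Nat.card (pathCh n (fun i j => i = 0 ∧ j = n - 1)).edgeSet := by
    have hP : ∀ i : Fin n, ∃ e : (pathCh n (fun i j => i = 0 ∧ j = n - 1)).edgeSet,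
        (∀ h : i.val + 1 < n, e.1 = s((⟨i.val, by omega⟩ : Fin n), ⟨i.val + 1, h⟩)) ∧
        (i.val + 1 = n → e.1 = s((⟨0, by omega⟩ : Fin n), ⟨n - 1, by omega⟩)) := by
      intro i
      rcases Nat.lt_or_ge (i.val + 1) n with h | h
      · refine ⟨⟨s((⟨i.val, by omega⟩ : Fin n), ⟨i.val + 1, h⟩), ?_⟩, fun _ => rfl, by omega⟩
        rw [mem_edgeSet, pathCh_adj]
        refine ⟨?_, Or.inl (Or.inl rfl)⟩
        intro he
        have := congrArg Fin.val he
        simp only at this
        omega
      · refine ⟨⟨s((⟨0, by omega⟩ : Fin n), ⟨n - 1, by omega⟩), ?_⟩, by omega, fun _ => rfl⟩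
        rw [mem_edgeSet, pathCh_adj]
        refine ⟨?_, Or.inl (Or.inr ⟨rfl, rfl⟩)⟩
        intro he
        have := congrArg Fin.val he
        simp only at this
        omega
    choose f hf1 hf2 using hP
    have hinj : Function.Injective f := by
      intro i j hij
      have hv : (f i).1 = (f j).1 := congrArg Subtype.val hij
      have hcase : ∀ i : Fin n, i.val + 1 < n ∨ i.val + 1 = n := by
        intro i; have := i.2; omega
      have key : ∀ a b c d : Fin n, s(a, b) = s(c, d) →
          (a.val = c.val ∧ b.val = d.val) ∨ (a.val = d.val ∧ b.val = c.val) := by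
        intro a b c d h
        rw [Sym2.eq_iff] at h
        rcases h with ⟨h1, h2⟩ | ⟨h1, h2⟩
        · left; rw [h1, h2]; exact ⟨rfl, rfl⟩
        · right; rw [h1, h2]; exact ⟨rfl, rfl⟩
      rcases hcase i with h1 | h1 <;> rcases hcase j with h2 | h2
      · rw [hf1 i h1, hf1 j h2] at hv
        have := key _ _ _ _ hv
        simp only at this
        apply Fin.ext; omega
      · rw [hf1 i h1, hf2 j h2] at hv
        have := key _ _ _ _ hv
        simp only at this
        exfalso; omega
      · rw [hf2 i h1, hf1 j h2] at hv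
        have := key _ _ _ _ hv
        simp only at this
        exfalso; omega
      · apply Fin.ext; omega
    have := Nat.card_le_card_of_injective f hinj
    rwa [Nat.card_eq_fintype_card, Fintype.card_fin] at this
  exact Gr.le_maxEdges ⟨Fin n, inferInstance, _, by rw [Fintype.card_fin], h2, h1⟩

end Pool.Agent.Helper64.Cyc
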