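import Pool.Agent.Helper64.Cyc.Assemble
import Pool.Agent.Helper64.Cyc.Small

/-!
# The uniform order of the logarithm of the number of cycles
-/

namespace Pool.Agent.Helper64.Cyc

open SimpleGraph Finset Pool.Agent.Helper72.Cyc

lemma quot_ge {n g : ℕ} (hg : 3 ≤ g) (hn : 3 * g ≤ 2 * n + 2) : (7 : ℝ) / 6 ≤ (n : ℝ) / g := by
  have hg0 : (0 : ℝ) < g := by exact_mod_cast (by omega : 0 < g)
  rw [div_le_div_iff₀ (by norm_num) hg0]
  have : 7 * g ≤ n * 6 := by omega
  exact_mod_cast this

lemma upper_all : ∃ β : ℝ, 0 < β ∧ ∀ g n : ℕ, 3 ≤ g → 3 * g ≤ 2 * n + 2 →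
    Real.log (maxCycles n g) ≤ β * ((n : ℝ) / g) * Real.log ((n : ℝ) / g) := by
  have h76 : 0 < Real.log (7 / 6) := Real.log_pos (by norm_num)
  have h12 : 0 < Real.log 12 := Real.log_pos (by norm_num)
  refine ⟨13 * (Real.log 12 / Real.log (7 / 6) + 1), by positivity, ?_⟩
  intro g n hg hn
  classical
  have hx := quot_ge hg hn
  have hg0 : (0 : ℝ) < g := by exact_mod_cast (by omega : 0 < g)
  set x : ℝ := (n : ℝ) / g with hxdef
  have hx0 : 0 < x := by linarith
  set s := (g - 3) / 10 + 1 with hs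
  have hs12 : g ≤ 12 * s := by omega
  have hsn : s ≤ n := by omega
  set M := n / s with hM
  have hM1 : 1 ≤ M := by
    rw [hM, Nat.le_div_iff_mul_le (by omega)]; omega
  have hc : maxCycles n g ≤ M ^ (M + 1) := by
    obtain ⟨G, hG, hcard⟩ := exists_maxCycles n g
    have := numCycles_upper (r := (g - 3) / 10) hG (by omega)
    rw [Fintype.card_fin, hcard] at this
    exact this
  have hMx : (M : ℝ) ≤ 12 * x := by
    have h1 : M * s ≤ n := Nat.div_mul_le_self n s
    have h2 : M * g ≤ 12 * n := by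
      calc M * g ≤ M * (12 * s) := Nat.mul_le_mul_left _ hs12
        _ = 12 * (M * s) := by ring
        _ ≤ 12 * n := Nat.mul_le_mul_left _ h1
    have h3 : (M : ℝ) * g ≤ 12 * n := by exact_mod_cast h2
    rw [hxdef, ← mul_div_assoc, le_div_iff₀ hg0]
    exact h3
  have hM1R : (1 : ℝ) ≤ M := by exact_mod_cast hM1
  have hlogM : 0 ≤ Real.log M := Real.log_nonneg hM1R
  have h1 : Real.log (maxCycles n g) ≤ (M + 1) * Real.log M := by
    rcases Nat.eq_zero_or_pos (maxCycles n g) with h0 | hpos
    · rw [h0, Nat.cast_zero, Real.log_zero]; positivity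
    · have h2 : (maxCycles n g : ℝ) ≤ (M : ℝ) ^ (M + 1) := by exact_mod_cast hc
      have h3 := Real.log_le_log (by exact_mod_cast hpos) h2
      rw [Real.log_pow] at h3
      push_cast at h3
      exact h3
  have hlx : Real.log (7 / 6) ≤ Real.log x := Real.log_le_log (by norm_num) hx
  have h2 : Real.log M ≤ (Real.log 12 / Real.log (7 / 6) + 1) * Real.log x := by
    have h3 := Real.log_le_log (by linarith) hMx
    rw [Real.log_mul (by norm_num) (by positivity)] at h3
    have h4 : Real.log 12 ≤ Real.log 12 / Real.log (7 / 6) * Real.log x := by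
      rw [div_mul_eq_mul_div, le_div_iff₀ h76]
      exact mul_le_mul_of_nonneg_left hlx h12.le
    linarith
  have h3 : (M : ℝ) + 1 ≤ 13 * x := by linarith
  calc Real.log (maxCycles n g) ≤ (M + 1) * Real.log M := h1
    _ ≤ (13 * x) * ((Real.log 12 / Real.log (7 / 6) + 1) * Real.log x) :=
        mul_le_mul h3 h2 hlogM (by positivity)
    _ = _ := by ring

lemma lower_all {a : ℝ} (ha : 0 < a) (hU : EdgeBound a) : ∃ α : ℝ, 0 < α ∧
    ∀ g n : ℕ, 3 ≤ g → 3 * g ≤ 2 * n + 2 →
      α * ((n : ℝ) / g) * Real.log ((n : ℝ) / g) ≤ Real.log (maxCycles n g) := by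
  obtain ⟨a', ha', K, hK2, hK⟩ := lower_large ha hU
  have hKR : (2 : ℝ) ≤ K := by exact_mod_cast hK2
  have hlogK : 0 < Real.log K := Real.log_pos (by linarith)
  have hlog2 : 0 < Real.log 2 := Real.log_pos (by norm_num)
  refine ⟨min a' (Real.log 2 / (K * Real.log K)), by positivity, ?_⟩
  intro g n hg hn
  have hx := quot_ge hg hn
  have hg0 : (0 : ℝ) < g := by exact_mod_cast (by omega : 0 < g)
  set x : ℝ := (n : ℝ) / g with hxdef
  have hx0 : 0 < x := by linarith
  have hlx : 0 ≤ Real.log x := Real.log_nonneg (by linarith)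
  rcases Nat.lt_or_ge n (K * g) with hlt | hge
  · have h2 := two_le_maxCycles hg hn
    have h3 : Real.log 2 ≤ Real.log (maxCycles n g) :=
      Real.log_le_log (by norm_num) (by exact_mod_cast h2)
    have hxK : x ≤ K := by
      rw [hxdef, div_le_iff₀ hg0]
      exact_mod_cast hlt.le
    calc min a' (Real.log 2 / (K * Real.log K)) * x * Real.log x
        ≤ Real.log 2 / (K * Real.log K) * x * Real.log x := by
          apply mul_le_mul_of_nonneg_right _ hlx
          exact mul_le_mul_of_nonneg_right (min_le_right _ _) hx0.le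
      _ ≤ Real.log 2 / (K * Real.log K) * K * Real.log K := by
          rw [mul_assoc, mul_assoc]
          apply mul_le_mul_of_nonneg_left _ (by positivity)
          exact mul_le_mul hxK (Real.log_le_log hx0 hxK) hlx (by positivity)
      _ = Real.log 2 := by
          have : (K : ℝ) * Real.log K ≠ 0 := by positivity
          field_simp
      _ ≤ _ := h3
  · refine le_trans ?_ (hK g n hg hge)
    apply mul_le_mul_of_nonneg_right _ hlx
    exact mul_le_mul_of_nonneg_right (min_le_left _ _) hx0.le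

end Pool.Agent.Helper64.Cyc
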