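import Pool.Agent.Helper64.Cyc.Subdiv
import Pool.Agent.Helper72.Cyc.ErdosSachs
import Pool.Agent.Helper72.Cyc.Moore

/-!
# The lower bound from the dense regime
-/

namespace Pool.Agent.Helper64.Cyc

open SimpleGraph Finset Pool.Agent.Helper72.Cyc

/-- The uniform comparison of cycles and edges. -/
def EdgeBound (a : ℝ) : Prop :=
  ∀ n g : ℕ, 3 ≤ g → g ≤ n → (a * maxEdges n g / n) ^ n ≤ maxCycles n g

lemma log_maxCycles_dense {a : ℝ} (ha : 0 < a) (hU : EdgeBound a) {D n g : ℕ} (hg : 3 ≤ g)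
    (hn : 2 * (D + 1) ^ g ≤ n) (hD : 1 ≤ D) :
    n * Real.log (a * D / 4) ≤ Real.log (maxCycles n g) := by
  have hgn : g ≤ n := by
    have h1 : g < 2 ^ g := Nat.lt_two_pow_self
    have h2 : 2 ^ g ≤ (D + 1) ^ g := Nat.pow_le_pow_left (by omega) g
    omega
  have hn0 : 0 < n := by omega
  have hES := erdos_sachs (by omega) hn
  have h1 := hU n g hg hgn
  have h2 : a * D / 4 ≤ a * maxEdges n g / n := by
    rw [div_le_div_iff₀ (by norm_num) (by exact_mod_cast hn0)]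
    have : ((D * n : ℕ) : ℝ) ≤ ((4 * maxEdges n g : ℕ) : ℝ) := by exact_mod_cast hES
    push_cast at this
    nlinarith
  have h3 : (0 : ℝ) < a * D / 4 := by
    have : (0 : ℝ) < D := by exact_mod_cast hD
    positivity
  have h4 : (a * D / 4) ^ n ≤ maxCycles n g := (pow_le_pow_left₀ h3.le h2 n).trans h1
  have h5 := Real.log_le_log (by positivity) h4
  rwa [Real.log_pow] at h5

/-- Moore bound at the critical size. -/
lemma maxEdges_crit {B γ : ℕ} (hB : 2 ≤ B) (hγ : 3 ≤ γ) :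
    maxEdges (2 * B ^ γ) γ ≤ (2 * B ^ 4 + 1) * (2 * B ^ γ) := by
  set N := 2 * B ^ γ with hN
  set k := (γ - 1) / 2 with hk
  have hk1 : 1 ≤ k := by omega
  have h1 := maxEdges_le_moore (g := γ) hk1 (by omega) N
  have hγk : γ ≤ 4 * k := by omega
  have hB0 : (1 : ℝ) ≤ B := by exact_mod_cast (by omega : 1 ≤ B)
  have h2 : (N : ℝ) ≤ (2 * (B : ℝ) ^ 4) ^ k := by
    rw [hN]
    push_cast
    rw [mul_pow, ← pow_mul]
    have e1 : (2 : ℝ) ≤ 2 ^ k := by
      calc (2 : ℝ) = 2 ^ 1 := by norm_num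
        _ ≤ 2 ^ k := pow_le_pow_right₀ (by norm_num) hk1
    have e2 : (B : ℝ) ^ γ ≤ (B : ℝ) ^ (4 * k) := pow_le_pow_right₀ hB0 hγk
    exact mul_le_mul e1 e2 (by positivity) (by positivity)
  have h3 : (N : ℝ) ^ ((1 : ℝ) / k) ≤ 2 * (B : ℝ) ^ 4 := by
    have := Real.rpow_le_rpow (by positivity) h2 (show (0 : ℝ) ≤ 1 / k by positivity)
    rw [← Real.rpow_natCast (2 * (B : ℝ) ^ 4) k, ← Real.rpow_mul (by positivity),
      mul_one_div_cancel (by positivity), Real.rpow_one] at this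
    exact this
  have h4 : (maxEdges N γ : ℝ) ≤ ((2 * B ^ 4 + 1) * N : ℕ) := by
    push_cast
    calc (maxEdges N γ : ℝ) ≤ N * ((N : ℝ) ^ ((1 : ℝ) / k) + 1) := h1
      _ ≤ N * (2 * (B : ℝ) ^ 4 + 1) := by
          apply mul_le_mul_of_nonneg_left (by linarith) (by positivity)
      _ = _ := by ring
  exact_mod_cast h4

/-- Parameters for the sparse regime. -/
lemma sparse_params {B : ℕ} (hB : 2 ≤ B) {n g : ℕ} (hg : 3 ≤ g)
    (hsp : n < 2 * B ^ g) (hx : 4 * (2 * B ^ 4 + 2) * B ^ 3 * g ≤ 3 * n) :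
    ∃ γ j, 3 ≤ γ ∧
      2 * B ^ γ + (2 ^ j - 1) * maxEdges (2 * B ^ γ) γ ≤ n ∧ g ≤ 2 ^ j * γ ∧
      (γ + 1) * n < 4 * (2 * B ^ 4 + 2) * B ^ (γ + 1) * g := by
  classical
  set c := 4 * (2 * B ^ 4 + 2) with hc
  have hc8 : 8 ≤ c := by rw [hc]; omega
  let P : ℕ → Prop := fun γ => c * B ^ γ * g ≤ γ * n
  have hPg : ¬ P g := by
    intro h
    have h1 : c * B ^ g * g ≤ g * n := h
    have h2 : c * B ^ g ≤ n := by
      have h3 : c * B ^ g * g ≤ n * g := by rw [mul_comm n g]; exact h1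
      exact Nat.le_of_mul_le_mul_right h3 (by omega)
    have h3 : 8 * B ^ g ≤ c * B ^ g := Nat.mul_le_mul_right _ hc8
    have h4 : 0 < B ^ g := Nat.pow_pos (by omega)
    omega
  have hP3 : P 3 := hx
  set γ := Nat.findGreatest P g with hγ
  have hPγ : P γ := Nat.findGreatest_spec hg hP3
  have h3γ : 3 ≤ γ := Nat.le_findGreatest hg hP3
  have hγg : γ ≤ g := Nat.findGreatest_le g
  have hγg' : γ < g := by
    rcases Nat.eq_or_lt_of_le hγg with h | h
    · exfalso; rw [h] at hPγ; exact hPg hPγ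
    · exact h
  have hnP : ¬ P (γ + 1) := Nat.findGreatest_is_greatest (Nat.lt_succ_self γ) hγg'
  have hjex : ∃ j, g ≤ 2 ^ j * γ := by
    refine ⟨g, ?_⟩
    have h1 : g < 2 ^ g := Nat.lt_two_pow_self
    nlinarith
  set j := Nat.find hjex with hj
  have hjs : g ≤ 2 ^ j * γ := Nat.find_spec hjex
  have hj1 : 1 ≤ j := by
    by_contra hlt
    have : j = 0 := by omega
    rw [this, pow_zero, one_mul] at hjs
    omega
  have hjm : 2 ^ (j - 1) * γ < g := by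
    have := Nat.find_min hjex (show j - 1 < Nat.find hjex by omega)
    omega
  have hj2 : 2 ^ j * γ ≤ 2 * g := by
    have e : 2 ^ j = 2 * 2 ^ (j - 1) := by
      rw [← pow_succ']; congr 1; omega
    rw [e, mul_assoc]; omega
  set N := 2 * B ^ γ with hN
  have hE : maxEdges N γ ≤ (2 * B ^ 4 + 1) * N := maxEdges_crit hB h3γ
  have hbound : N + (2 ^ j - 1) * maxEdges N γ ≤ n := by
    have h1 : N + (2 ^ j - 1) * maxEdges N γ ≤ 2 ^ j * ((2 * B ^ 4 + 2) * N) := by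
      have hp : 1 ≤ 2 ^ j := Nat.one_le_two_pow
      obtain ⟨q, hq⟩ : ∃ q, 2 ^ j = q + 1 := ⟨2 ^ j - 1, by omega⟩
      rw [hq, Nat.add_sub_cancel]
      have h2 : q * maxEdges N γ ≤ q * ((2 * B ^ 4 + 1) * N) := Nat.mul_le_mul_left _ hE
      have h3 : (q + 1) * ((2 * B ^ 4 + 2) * N) =
        q * ((2 * B ^ 4 + 1) * N) + q * N + (2 * B ^ 4 + 1) * N + N := by ring
      rw [h3]
      omega
    refine h1.trans ?_
    have h2 : 2 ^ j * ((2 * B ^ 4 + 2) * N) * γ ≤ n * γ := by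
      calc 2 ^ j * ((2 * B ^ 4 + 2) * N) * γ = (2 ^ j * γ) * ((2 * B ^ 4 + 2) * N) := by ring
        _ ≤ (2 * g) * ((2 * B ^ 4 + 2) * N) := Nat.mul_le_mul_right _ hj2
        _ = c * B ^ γ * g := by rw [hc, hN]; ring
        _ ≤ γ * n := hPγ
        _ = n * γ := mul_comm _ _
    exact Nat.le_of_mul_le_mul_right h2 (by omega)
  exact ⟨γ, j, h3γ, hbound, hjs, not_le.1 hnP⟩

/-- The sparse regime. -/
lemma sparse_step {a : ℝ} (ha : 0 < a) (hU : EdgeBound a) {B : ℕ} (hB : 2 ≤ B)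
    (haB : Real.exp 1 ≤ a * ((B - 1 : ℕ) : ℝ) / 4) {n g : ℕ} (hg : 3 ≤ g)
    (hsp : n < 2 * B ^ g) (hx : 4 * (2 * B ^ 4 + 2) * B ^ 3 * g ≤ 3 * n) :
    ∃ γ, 3 ≤ γ ∧ (2 * (B : ℝ) ^ γ ≤ Real.log (maxCycles n g)) ∧
      (γ + 1) * n < 4 * (2 * B ^ 4 + 2) * B ^ (γ + 1) * g := by
  obtain ⟨γ, j, h3γ, hbound, hjs, hnP⟩ := sparse_params hB hg hsp hx
  set N := 2 * B ^ γ with hN
  have hle := maxCycles_subd (g := g) j hbound hjs
  have hdense := log_maxCycles_dense ha hU (D := B - 1) (n := N) (g := γ) h3γ (by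
    rw [hN]
    have : B - 1 + 1 = B := by omega
    rw [this]) (by omega)
  have hlog1 : 1 ≤ Real.log (a * ((B - 1 : ℕ) : ℝ) / 4) := by
    rw [Real.le_log_iff_exp_le (lt_of_lt_of_le (Real.exp_pos 1) haB)]
    exact haB
  have hNlog : (N : ℝ) ≤ Real.log (maxCycles N γ) := by
    refine le_trans ?_ hdense
    have : (0 : ℝ) ≤ N := Nat.cast_nonneg _
    nlinarith
  have hNpos : (0 : ℝ) < N := by
    have : 0 < N := by
      rw [hN]
      have : 0 < B ^ γ := Nat.pow_pos (by omega)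
      omega
    exact_mod_cast this
  have hpos : (0 : ℝ) < maxCycles N γ := by
    by_contra hcon
    have h0 : (maxCycles N γ : ℝ) = 0 := le_antisymm (not_lt.1 hcon) (Nat.cast_nonneg _)
    rw [h0, Real.log_zero] at hNlog
    linarith
  refine ⟨γ, h3γ, ?_, hnP⟩
  have h1 : Real.log (maxCycles N γ) ≤ Real.log (maxCycles n g) :=
    Real.log_le_log hpos (by exact_mod_cast hle)
  have h2 : (N : ℝ) = 2 * (B : ℝ) ^ γ := by rw [hN]; push_cast; ring
  rw [← h2]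
  exact hNlog.trans h1

end Pool.Agent.Helper64.Cyc
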