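import Pool.Agent.Helper72.Cyc.Trans

/-!
# Edge parities of walks in a graph without short cycles
-/

namespace Pool.Agent.Helper64.Cyc

open SimpleGraph Finset Pool.Agent.Helper72.Cyc

variable {V : Type*} {G : SimpleGraph V}

open scoped Classical in
/-- The parity of the number of times a walk uses each edge. -/
noncomputable def par {u v : V} (p : G.Walk u v) : Sym2 V → ZMod 2 :=
  fun e => (p.edges.count e : ZMod 2)

open scoped Classical in
/-- The indicator of an edge. -/
noncomputable def ind (u v : V) : Sym2 V → ZMod 2 := fun e => if e = s(u, v) then 1 else 0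

lemma ind_symm (u v : V) : ind u v = ind v u := by
  unfold ind
  rw [Sym2.eq_swap]

lemma add_self_zero (P : Sym2 V → ZMod 2) : P + P = 0 := by
  funext e
  exact CharTwo.add_self_eq_zero _

lemma par_nil (u : V) : par (Walk.nil : G.Walk u u) = 0 := by
  funext e; simp [par]

lemma par_cons {u v w : V} (h : G.Adj u v) (p : G.Walk v w) :
    par (Walk.cons h p) = ind u v + par p := by
  classical
  funext e
  simp only [par, ind, Walk.edges_cons, Pi.add_apply]
  rw [List.count_cons]
  by_cases he : e = s(u, v)
  · subst he; simp [add_comm]
  · rw [if_neg he]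
    have : ¬ (s(u, v) == e) = true := by
      rw [beq_iff_eq]; exact fun h => he h.symm
    rw [if_neg this]; simp

lemma par_append {u v w : V} (p : G.Walk u v) (q : G.Walk v w) :
    par (p.append q) = par p + par q := by
  classical
  funext e
  simp only [par, Walk.edges_append, List.count_append, Pi.add_apply]
  push_cast; rfl

lemma par_reverse {u v : V} (p : G.Walk u v) : par p.reverse = par p := by
  classical
  funext e
  simp only [par, Walk.edges_reverse, List.count_reverse]

lemma noShort_length {g : ℕ} (hG : NoShort G g) {u : V} {p : G.Walk u u} (hp : p.IsCycle) :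
    g ≤ p.length := by
  have := (le_egirth.1 (le_egirth_iff.2 hG)) u p hp
  exact_mod_cast this

lemma par_bypass [DecidableEq V] {g : ℕ} (hG : NoShort G g) {u v : V} (p : G.Walk u v)
    (hp : p.length < g) : par p = par p.bypass := by
  induction p with
  | nil => rfl
  | @cons u w v h q ih =>
    rw [Walk.length_cons] at hp
    have hq := ih (by omega)
    by_cases hs : u ∈ q.bypass.support
    · have hb : (Walk.cons h q).bypass = q.bypass.dropUntil u hs := by
        simp only [Walk.bypass]
        rw [dif_pos hs]
      rw [hb, par_cons, hq]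
      have hspec : (q.bypass.takeUntil u hs).append (q.bypass.dropUntil u hs) = q.bypass :=
        Walk.take_spec _ hs
      have h1 : par q.bypass = par (q.bypass.takeUntil u hs) + par (q.bypass.dropUntil u hs) := by
        rw [← par_append, hspec]
      have hpath : (q.bypass.takeUntil u hs).IsPath := (q.bypass_isPath).takeUntil hs
      have hlen : (q.bypass.takeUntil u hs).length ≤ q.length :=
        (Walk.length_takeUntil_le_length _ hs).trans q.length_bypass_le_length
      have h2 : ind u w + par (q.bypass.takeUntil u hs) = 0 := by
        by_cases he : s(u, w) ∈ (q.bypass.takeUntil u hs).edges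
        · have h3 : (q.bypass.takeUntil u hs).length = 1 := by
            apply hpath.length_eq_one_of_mem_edges
            rw [Sym2.eq_swap]; exact he
          generalize q.bypass.takeUntil u hs = t at *
          match t, h3 with
          | Walk.cons h' Walk.nil, _ =>
            rw [par_cons, par_nil, add_zero, ind_symm w u]
            exact add_self_zero _
        · exfalso
          have hc : (Walk.cons h (q.bypass.takeUntil u hs)).IsCycle := by
            rw [Walk.cons_isCycle_iff]
            exact ⟨hpath, he⟩
          have := noShort_length hG hc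
          rw [Walk.length_cons] at this
          omega
      rw [h1, ← add_assoc, h2, zero_add]
    · have hb : (Walk.cons h q).bypass = Walk.cons h q.bypass := by
        simp only [Walk.bypass]
        rw [dif_neg hs]
      rw [hb, par_cons, par_cons, hq]

/-- A closed walk shorter than the girth uses every edge an even number of times. -/
lemma par_closed {g : ℕ} (hG : NoShort G g) {u : V} (p : G.Walk u u) (hp : p.length < g) :
    par p = 0 := by
  classical
  rw [par_bypass hG p hp, (Walk.isPath_iff_nil.1 p.bypass_isPath).eq_nil, par_nil]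

/-- Connection by a walk of length at most `l` with parity `P`. -/
def Con (G : SimpleGraph V) (u v : V) (l : ℕ) (P : Sym2 V → ZMod 2) : Prop :=
  ∃ p : G.Walk u v, p.length ≤ l ∧ par p = P

lemma Con.refl (u : V) : Con G u u 0 0 := ⟨Walk.nil, le_rfl, par_nil u⟩

lemma Con.trans {u v w : V} {l l' : ℕ} {P P' : Sym2 V → ZMod 2} (h : Con G u v l P)
    (h' : Con G v w l' P') : Con G u w (l + l') (P + P') := by
  obtain ⟨p, hp, rfl⟩ := h
  obtain ⟨q, hq, rfl⟩ := h'
  exact ⟨p.append q, by rw [Walk.length_append]; omega, par_append p q⟩

lemma Con.symm {u v : V} {l : ℕ} {P : Sym2 V → ZMod 2} (h : Con G u v l P) : Con G v u l P := by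
  obtain ⟨p, hp, rfl⟩ := h
  exact ⟨p.reverse, by rw [Walk.length_reverse]; exact hp, par_reverse p⟩

lemma Con.mono {u v : V} {l l' : ℕ} {P : Sym2 V → ZMod 2} (h : Con G u v l P) (hl : l ≤ l') :
    Con G u v l' P := by
  obtain ⟨p, hp, hP⟩ := h
  exact ⟨p, hp.trans hl, hP⟩

lemma Con.adj {u v : V} (h : G.Adj u v) : Con G u v 1 (ind u v) :=
  ⟨Walk.cons h Walk.nil, by simp, by rw [par_cons, par_nil, add_zero]⟩

lemma Con.unique {g : ℕ} (hG : NoShort G g) {u v : V} {l l' : ℕ} {P P' : Sym2 V → ZMod 2}
    (h : Con G u v l P) (h' : Con G u v l' P') (hl : l + l' < g) : P = P' := by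
  obtain ⟨p, hp, rfl⟩ := h
  obtain ⟨q, hq, rfl⟩ := h'
  have h1 := par_closed hG (p.append q.reverse) (by
    rw [Walk.length_append, Walk.length_reverse]; omega)
  rw [par_append, par_reverse] at h1
  funext e
  have := congrFun h1 e
  simp only [Pi.add_apply, Pi.zero_apply] at this
  exact CharTwo.add_eq_zero.1 this

/-- Walks along a sequence. -/
lemma Con.seq {u : ℕ → V} (hadj : ∀ i, G.Adj (u i) (u (i + 1))) (a : ℕ) (l : ℕ) :
    Con G (u a) (u (a + l)) l (∑ i ∈ Finset.range l, ind (u (a + i)) (u (a + i + 1))) := by
  induction l with
  | zero => simpa using Con.refl (G := G) (u a)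
  | succ l ih =>
    rw [Finset.sum_range_succ]
    exact ih.trans (Con.adj (hadj (a + l)))

end Pool.Agent.Helper64.Cyc
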