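import Pool.Agent.Helper64.Cyc.Par

/-!
# Cycles as periodic sequences and as edge parities
-/

namespace Pool.Agent.Helper64.Cyc

open SimpleGraph Finset Pool.Agent.Helper72.Cyc

variable {V : Type*} {G : SimpleGraph V}

/-- A cycle of length `L` as a periodic sequence. -/
structure IsCyc (G : SimpleGraph V) (L : ℕ) (u : ℕ → V) : Prop where
  three : 3 ≤ L
  per : ∀ i, u (i + L) = u i
  adj : ∀ i, G.Adj (u i) (u (i + 1))
  inj : ∀ i j, i < L → j < L → u i = u j → i = j

/-- The parity vector of a cyclic sequence. -/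
noncomputable def cpar (L : ℕ) (u : ℕ → V) : Sym2 V → ZMod 2 :=
  ∑ i ∈ Finset.range L, ind (u i) (u (i + 1))

lemma IsCyc.edge_inj {L : ℕ} {u : ℕ → V} (h : IsCyc G L u) {i j : ℕ} (hi : i < L) (hj : j < L)
    (he : s(u i, u (i + 1)) = s(u j, u (j + 1))) : i = j := by
  have h3 := h.three
  have h0 : u L = u 0 := by have := h.per 0; rwa [zero_add] at this
  rw [Sym2.eq_iff] at he
  rcases he with ⟨h1, -⟩ | ⟨h1, h2⟩
  · exact h.inj i j hi hj h1
  · exfalso
    rcases Nat.lt_or_ge (j + 1) L with hj1 | hj1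
    · have e1 := h.inj i (j + 1) hi hj1 h1
      subst e1
      rcases Nat.lt_or_ge (j + 1 + 1) L with hj2 | hj2
      · have := h.inj (j + 1 + 1) j hj2 hj h2
        omega
      · have e2 : j + 1 + 1 = L := by omega
        rw [e2, h0] at h2
        have := h.inj 0 j (by omega) hj h2
        omega
    · have e1 : j + 1 = L := by omega
      rw [e1, h0] at h1
      have e2 := h.inj i 0 hi (by omega) h1
      subst e2
      have := h.inj (0 + 1) j (by omega) hj h2
      omega

open scoped Classical in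
lemma IsCyc.cpar_apply {L : ℕ} {u : ℕ → V} (h : IsCyc G L u) (e : Sym2 V) :
    cpar L u e = if ∃ i < L, e = s(u i, u (i + 1)) then 1 else 0 := by
  unfold cpar
  rw [Finset.sum_apply]
  by_cases hex : ∃ i < L, e = s(u i, u (i + 1))
  · rw [if_pos hex]
    obtain ⟨i, hi, he⟩ := hex
    rw [Finset.sum_eq_single i]
    · simp only [ind]; rw [if_pos he]
    · intro j hj hji
      rw [Finset.mem_range] at hj
      simp only [ind]
      rw [if_neg]
      intro he'
      exact hji (h.edge_inj hj hi (he'.symm.trans he))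
    · intro hni
      exact absurd (Finset.mem_range.2 hi) hni
  · rw [if_neg hex]
    apply Finset.sum_eq_zero
    intro j hj
    simp only [ind]
    rw [if_neg]
    intro he
    exact hex ⟨j, Finset.mem_range.1 hj, he⟩

lemma IsCyc.comap_ne {L : ℕ} {u : ℕ → V} (h : IsCyc G L u) : u 0 ≠ u 1 := (h.adj 0).ne

/-- Reduction modulo `m + 3`. -/
def cf (m i : ℕ) : Fin (m + 3) := ⟨i % (m + 3), Nat.mod_lt _ (by omega)⟩

lemma cf_succ (m i : ℕ) : cf m (i + 1) = cf m i + 1 := by
  apply Fin.ext
  rw [Fin.val_add]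
  have h1 : ((1 : Fin (m + 3)) : ℕ) = 1 := rfl
  rw [h1]
  simp [cf]

lemma cf_add (m i : ℕ) : cf m (i + (m + 3)) = cf m i := by
  apply Fin.ext; simp [cf]

lemma cf_val (m : ℕ) (i : Fin (m + 3)) : cf m i.val = i := by
  apply Fin.ext; simp [cf, Nat.mod_eq_of_lt i.2]

lemma isCyc_of_copy {m : ℕ} (c : Copy (cycleGraph (m + 3)) G) :
    IsCyc G (m + 3) (fun i => c (cf m i)) := by
  refine ⟨by omega, ?_, ?_, ?_⟩
  · intro i
    simp only [cf_add]
  · intro i
    apply c.toHom.map_rel
    rw [cyc_adj_iff]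
    left
    exact (cf_succ m i).symm
  · intro i j hi hj hij
    have h1 : cf m i = cf m j := c.injective hij
    have h2 := congrArg Fin.val h1
    simp only [cf] at h2
    rwa [Nat.mod_eq_of_lt hi, Nat.mod_eq_of_lt hj] at h2

lemma IsCyc.exists_copy {L : ℕ} {u : ℕ → V} (h : IsCyc G L u) : ∃ m, L = m + 3 ∧
    ∃ c : Copy (cycleGraph (m + 3)) G, ∀ i : ℕ, c (cf m i) = u i := by
  obtain ⟨m, rfl⟩ : ∃ m, L = m + 3 := ⟨L - 3, by have := h.three; omega⟩
  refine ⟨m, rfl, ?_⟩
  have hstep : ∀ i : Fin (m + 3), u ((i + 1 : Fin (m + 3)) : ℕ) = u ((i : ℕ) + 1) := by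
    intro i
    have h1 : ((i + 1 : Fin (m + 3)) : ℕ) = ((i : ℕ) + 1) % (m + 3) := by
      rw [Fin.val_add]; simp
    rw [h1]
    rcases Nat.lt_or_ge ((i : ℕ) + 1) (m + 3) with h2 | h2
    · rw [Nat.mod_eq_of_lt h2]
    · have h3 : (i : ℕ) + 1 = m + 3 := by have := i.2; omega
      rw [h3, Nat.mod_self]
      have := h.per 0
      rw [zero_add] at this
      exact this.symm
  have hmod : ∀ i : ℕ, u (i % (m + 3)) = u i := by
    intro i
    have : ∀ q r : ℕ, u (r + (m + 3) * q) = u r := by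
      intro q r
      induction q with
      | zero => simp
      | succ q ih =>
        have e : r + (m + 3) * (q + 1) = (r + (m + 3) * q) + (m + 3) := by ring
        rw [e, h.per, ih]
    conv_rhs => rw [← Nat.mod_add_div i (m + 3)]
    exact (this _ _).symm
  refine ⟨⟨⟨fun i => u i.val, ?_⟩, ?_⟩, ?_⟩
  · intro a b hab
    rw [cyc_adj_iff] at hab
    rcases hab with h1 | h1
    · rw [← h1]
      simp only [hstep]
      exact h.adj _
    · rw [← h1]
      simp only [hstep]
      exact (h.adj _).symm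
  · intro a b hab
    exact Fin.ext (h.inj _ _ a.2 b.2 hab)
  · intro i
    exact hmod i

lemma mem_edgeSet_copy {m : ℕ} (c : Copy (cycleGraph (m + 3)) G) (e : Sym2 V) :
    e ∈ c.toSubgraph.edgeSet ↔
      ∃ i < m + 3, e = s(c (cf m i), c (cf m (i + 1))) := by
  induction e using Sym2.ind with
  | _ a b =>
    rw [Subgraph.mem_edgeSet]
    have h0 : c.toSubgraph.Adj a b ↔ ∃ i j, (cycleGraph (m + 3)).Adj i j ∧ c i = a ∧ c j = b := by
      rw [Copy.toSubgraph, Subgraph.map_adj]
      constructor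
      · rintro ⟨i, j, hij, h1, h2⟩
        exact ⟨i, j, by simpa using hij, h1, h2⟩
      · rintro ⟨i, j, hij, h1, h2⟩
        exact ⟨i, j, by simpa using hij, h1, h2⟩
    rw [h0]
    constructor
    · rintro ⟨i, j, hij, rfl, rfl⟩
      rw [cyc_adj_iff] at hij
      rcases hij with h | h
      · refine ⟨i.val, i.2, ?_⟩
        rw [cf_succ, cf_val, h]
      · refine ⟨j.val, j.2, ?_⟩
        rw [cf_succ, cf_val, h, Sym2.eq_swap]
    · rintro ⟨i, hi, he⟩
      rw [Sym2.eq_iff] at he
      rcases he with ⟨h1, h2⟩ | ⟨h1, h2⟩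
      · refine ⟨cf m i, cf m (i + 1), ?_, h1.symm, h2.symm⟩
        rw [cyc_adj_iff]; left; exact (cf_succ m i).symm
      · refine ⟨cf m (i + 1), cf m i, ?_, h1.symm, h2.symm⟩
        rw [cyc_adj_iff]; right; exact (cf_succ m i).symm

open scoped Classical in
lemma cpar_copy {m : ℕ} (c : Copy (cycleGraph (m + 3)) G) :
    cpar (m + 3) (fun i => c (cf m i)) =
      fun e => if e ∈ c.toSubgraph.edgeSet then 1 else 0 := by
  funext e
  rw [(isCyc_of_copy c).cpar_apply]
  simp only [mem_edgeSet_copy]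

open scoped Classical in
/-- The set of parity vectors of cycles. -/
noncomputable def cycSet [Fintype V] (G : SimpleGraph V) : Finset (Sym2 V → ZMod 2) :=
  {P | ∃ L u, IsCyc G L u ∧ P = cpar L u}

lemma mem_cycSet [Fintype V] {P : Sym2 V → ZMod 2} :
    P ∈ cycSet G ↔ ∃ L u, IsCyc G L u ∧ P = cpar L u := by
  simp only [cycSet, Finset.mem_filter, Finset.mem_univ, true_and]

open scoped Classical in
/-- Cycles are counted by their parity vectors. -/
lemma numCycles_eq_card [Fintype V] : numCycles G = (cycSet G).card := by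
  set S : Finset (Σ _ : ℕ, G.Subgraph) := (Finset.Icc 3 (Fintype.card V)).sigma
    (fun k => {H : G.Subgraph | Nonempty (cycleGraph k ≃g H.coe)}) with hSdef
  have hS : S.card = numCycles G := by
    rw [hSdef, Finset.card_sigma]
    unfold numCycles
    apply Finset.sum_congr rfl
    intro k _
    rw [SimpleGraph.copyCount]
  have key : ∀ p ∈ S, ∃ m, p.1 = m + 3 ∧ ∃ c : Copy (cycleGraph (m + 3)) G,
      p.2 = c.toSubgraph := by
    intro p hp
    rw [hSdef, Finset.mem_sigma, Finset.mem_Icc, Finset.mem_filter] at hp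
    obtain ⟨k, A⟩ := p
    obtain ⟨m, hm⟩ : ∃ m, k = m + 3 := ⟨k - 3, by have := hp.1.1; simp only at this; omega⟩
    refine ⟨m, hm, ?_⟩
    subst hm
    have h2 : A ∈ {B' : G.Subgraph | Nonempty (cycleGraph (m + 3) ≃g B'.coe)} := hp.2.2
    rw [← Copy.range_toSubgraph] at h2
    obtain ⟨c, hc⟩ := h2
    exact ⟨c, hc.symm⟩
  rw [← hS]
  apply Finset.card_bij (fun p _ => fun e => if e ∈ p.2.edgeSet then (1 : ZMod 2) else 0)
  · intro p hp
    obtain ⟨m, -, c, hc⟩ := key p hp
    rw [mem_cycSet]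
    refine ⟨m + 3, _, isCyc_of_copy c, ?_⟩
    rw [cpar_copy, hc]
  · intro p hp q hq hpq
    obtain ⟨m, hm, c, hc⟩ := key p hp
    obtain ⟨m', hm', c', hc'⟩ := key q hq
    have hE : ∀ e, e ∈ p.2.edgeSet ↔ e ∈ q.2.edgeSet := by
      intro e
      have h0 : (if e ∈ p.2.edgeSet then (1 : ZMod 2) else 0) =
        if e ∈ q.2.edgeSet then (1 : ZMod 2) else 0 := congrFun hpq e
      by_cases h1 : e ∈ p.2.edgeSet
      · by_cases h2 : e ∈ q.2.edgeSet
        · exact ⟨fun _ => h2, fun _ => h1⟩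
        · rw [if_pos h1, if_neg h2] at h0
          exact absurd h0 one_ne_zero
      · by_cases h2 : e ∈ q.2.edgeSet
        · rw [if_neg h1, if_pos h2] at h0
          exact absurd h0.symm one_ne_zero
        · exact ⟨fun h => absurd h h1, fun h => absurd h h2⟩
    have hAdj : ∀ a b, p.2.Adj a b ↔ q.2.Adj a b := fun a b => hE s(a, b)
    have hverts : ∀ (A : G.Subgraph) (k : ℕ) (d : Copy (cycleGraph (k + 3)) G),
        A = d.toSubgraph → ∀ v, v ∈ A.verts ↔ ∃ w, A.Adj v w := by
      intro A k d hA v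
      constructor
      · intro hv
        rw [hA, Copy.toSubgraph, Subgraph.map_verts] at hv
        obtain ⟨i, -, hi⟩ := hv
        refine ⟨d (i + 1), ?_⟩
        rw [← hi, hA, Copy.toSubgraph, Subgraph.map_adj]
        exact ⟨i, i + 1, by
          rw [Subgraph.top_adj, cyc_adj_iff]; left; rfl, rfl, rfl⟩
      · rintro ⟨w, hw⟩
        exact A.edge_vert hw
    have hsub : p.2 = q.2 := by
      apply Subgraph.ext
      · ext v
        rw [hverts p.2 m c hc v, hverts q.2 m' c' hc' v]
        simp only [hAdj]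
      · ext a b
        exact hAdj a b
    have hk : p.1 = q.1 := by
      rw [hSdef, Finset.mem_sigma, Finset.mem_Icc, Finset.mem_filter] at hp hq
      obtain ⟨e1⟩ := hp.2.2
      obtain ⟨e2⟩ := hq.2.2
      have c1 := Nat.card_congr e1.toEquiv
      have c2 := Nat.card_congr e2.toEquiv
      rw [Nat.card_eq_fintype_card, Fintype.card_fin] at c1 c2
      rw [c1, c2, hsub]
    exact Sigma.ext hk (heq_of_eq hsub)
  · intro P hP
    rw [mem_cycSet] at hP
    obtain ⟨L, u, hu, rfl⟩ := hP
    obtain ⟨m, rfl, c, hc⟩ := hu.exists_copy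
    refine ⟨⟨m + 3, c.toSubgraph⟩, ?_, ?_⟩
    · rw [hSdef, Finset.mem_sigma, Finset.mem_Icc, Finset.mem_filter]
      refine ⟨⟨by simp, ?_⟩, Finset.mem_univ _, ⟨c.isoToSubgraph⟩⟩
      have := Fintype.card_le_of_injective c c.injective
      rwa [Fintype.card_fin] at this
    · have hu' : u = fun i => c (cf m i) := by
        funext i; exact (hc i).symm
      rw [hu', cpar_copy]

lemma noShort_iff {g : ℕ} : NoShort G g ↔ ∀ L u, IsCyc G L u → g ≤ L := by
  constructor
  · intro h L u hu
    obtain ⟨m, rfl, c, hc⟩ := hu.exists_copy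
    exact h m c c.injective (fun i => by
      apply c.toHom.map_rel
      rw [cyc_adj_iff]; left; rfl)
  · intro h m f hf hadj
    obtain ⟨c⟩ := copy_of_seq hf hadj
    exact h (m + 3) _ (isCyc_of_copy c)

end Pool.Agent.Helper64.Cyc
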