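import Pool.Agent.Helper64.Cyc.Upper

/-!
# Subdivision of all edges
-/

namespace Pool.Agent.Helper64.Cyc

open SimpleGraph Finset Pool.Agent.Helper72.Cyc

variable {V : Type*} {G : SimpleGraph V}

/-- The adjacency of the subdivision. -/
def subAdj (G : SimpleGraph V) : V ⊕ G.edgeSet → V ⊕ G.edgeSet → Prop
  | Sum.inl v, Sum.inr e => v ∈ e.1
  | Sum.inr e, Sum.inl v => v ∈ e.1
  | _, _ => False

/-- Every edge is replaced by a path with two edges. -/
def subd (G : SimpleGraph V) : SimpleGraph (V ⊕ G.edgeSet) where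
  Adj := subAdj G
  symm := ⟨by
    rintro (a | a) (b | b) h
    · exact h
    · exact h
    · exact h
    · exact h⟩
  loopless := ⟨by
    rintro (a | a) h
    · exact h
    · exact h⟩

lemma subd_lr {v : V} {e : G.edgeSet} : (subd G).Adj (Sum.inl v) (Sum.inr e) ↔ v ∈ e.1 := Iff.rfl

lemma subd_rl {v : V} {e : G.edgeSet} : (subd G).Adj (Sum.inr e) (Sum.inl v) ↔ v ∈ e.1 := Iff.rfl

lemma subd_ll {v w : V} : ¬ (subd G).Adj (Sum.inl v) (Sum.inl w) := fun h => h

lemma subd_rr {v w : G.edgeSet} : ¬ (subd G).Adj (Sum.inr v) (Sum.inr w) := fun h => h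

/-- The subdivided sequence. -/
def subSeq {u : ℕ → V} (hadj : ∀ i, G.Adj (u i) (u (i + 1))) (j : ℕ) : V ⊕ G.edgeSet :=
  if j % 2 = 0 then Sum.inl (u (j / 2)) else Sum.inr ⟨s(u (j / 2), u (j / 2 + 1)), hadj (j / 2)⟩

lemma subSeq_even {u : ℕ → V} (hadj : ∀ i, G.Adj (u i) (u (i + 1))) (i : ℕ) :
    subSeq hadj (2 * i) = Sum.inl (u i) := by
  unfold subSeq
  rw [if_pos (by omega)]
  congr 2; omega

lemma subSeq_odd {u : ℕ → V} (hadj : ∀ i, G.Adj (u i) (u (i + 1))) (i : ℕ) :
    subSeq hadj (2 * i + 1) = Sum.inr ⟨s(u i, u (i + 1)), hadj i⟩ := by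
  unfold subSeq
  rw [if_neg (by omega)]
  have e : (2 * i + 1) / 2 = i := by omega
  simp only [e]

lemma even_or_odd' (j : ℕ) : (∃ i, j = 2 * i) ∨ ∃ i, j = 2 * i + 1 := by
  rcases Nat.mod_two_eq_zero_or_one j with h | h
  · left; exact ⟨j / 2, by omega⟩
  · right; exact ⟨j / 2, by omega⟩

lemma isCyc_subSeq {L : ℕ} {u : ℕ → V} (h : IsCyc G L u) :
    IsCyc (subd G) (2 * L) (subSeq h.adj) := by
  have h3 := h.three
  refine ⟨by omega, ?_, ?_, ?_⟩
  · intro j
    rcases even_or_odd' j with ⟨i, rfl⟩ | ⟨i, rfl⟩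
    · have e : 2 * i + 2 * L = 2 * (i + L) := by ring
      rw [e, subSeq_even, subSeq_even, h.per]
    · have e : 2 * i + 1 + 2 * L = 2 * (i + L) + 1 := by ring
      rw [e, subSeq_odd, subSeq_odd]
      congr 1
      apply Subtype.ext
      have e2 : i + L + 1 = i + 1 + L := by ring
      simp only [e2, h.per]
  · intro j
    rcases even_or_odd' j with ⟨i, rfl⟩ | ⟨i, rfl⟩
    · rw [subSeq_even, subSeq_odd, subd_lr]
      exact Sym2.mem_mk_left _ _
    · have e : 2 * i + 1 + 1 = 2 * (i + 1) := by ring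
      rw [e, subSeq_even, subSeq_odd, subd_rl]
      exact Sym2.mem_mk_right _ _
  · intro a b ha hb hab
    rcases even_or_odd' a with ⟨i, rfl⟩ | ⟨i, rfl⟩ <;> rcases even_or_odd' b with ⟨j, rfl⟩ | ⟨j, rfl⟩
    · rw [subSeq_even, subSeq_even] at hab
      have := h.inj i j (by omega) (by omega) (Sum.inl_injective hab)
      omega
    · rw [subSeq_even, subSeq_odd] at hab
      exact absurd hab (by simp)
    · rw [subSeq_even, subSeq_odd] at hab
      exact absurd hab (by simp)
    · rw [subSeq_odd, subSeq_odd] at hab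
      have h1 := congrArg Subtype.val (Sum.inr_injective hab)
      have := h.edge_inj (by omega) (by omega) h1
      omega

open scoped Classical in
/-- Pullback of parity vectors. -/
noncomputable def pull (G : SimpleGraph V) (Q : Sym2 (V ⊕ G.edgeSet) → ZMod 2) :
    Sym2 V → ZMod 2 :=
  fun e => if h : e ∈ G.edgeSet then Q s(Sum.inl (Quot.out e).1, Sum.inr ⟨e, h⟩) else 0

lemma out_mem (e : Sym2 V) : (Quot.out e).1 ∈ e := Sym2.out_fst_mem e

lemma pull_cpar {L : ℕ} {u : ℕ → V} (h : IsCyc G L u) :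
    pull G (cpar (2 * L) (subSeq h.adj)) = cpar L u := by
  classical
  funext e
  rw [h.cpar_apply]
  unfold pull
  by_cases he : e ∈ G.edgeSet
  · rw [dif_pos he, (isCyc_subSeq h).cpar_apply]
    congr 1
    apply propext
    constructor
    · rintro ⟨j, hj, hje⟩
      rcases even_or_odd' j with ⟨i, rfl⟩ | ⟨i, rfl⟩
      · rw [subSeq_even, subSeq_odd, Sym2.eq_iff] at hje
        rcases hje with ⟨h1, h2⟩ | ⟨h1, h2⟩
        · exact ⟨i, by omega, congrArg Subtype.val (Sum.inr_injective h2)⟩
        · exact absurd h1 (by simp)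
      · have e1 : 2 * i + 1 + 1 = 2 * (i + 1) := by ring
        rw [e1, subSeq_even, subSeq_odd, Sym2.eq_iff] at hje
        rcases hje with ⟨h1, h2⟩ | ⟨h1, h2⟩
        · exact absurd h1 (by simp)
        · exact ⟨i, by omega, congrArg Subtype.val (Sum.inr_injective h2)⟩
    · rintro ⟨i, hi, hie⟩
      have hm := out_mem e
      have hm' : (Quot.out e).1 = u i ∨ (Quot.out e).1 = u (i + 1) := by
        have : (Quot.out e).1 ∈ s(u i, u (i + 1)) := by rw [← hie]; exact hm
        exact Sym2.mem_iff.1 this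
      have hval : (⟨e, he⟩ : G.edgeSet) = ⟨s(u i, u (i + 1)), h.adj i⟩ := Subtype.ext hie
      rcases hm' with h1 | h1
      · refine ⟨2 * i, by omega, ?_⟩
        rw [subSeq_even, subSeq_odd, h1, hval]
      · refine ⟨2 * i + 1, by omega, ?_⟩
        have e1 : 2 * i + 1 + 1 = 2 * (i + 1) := by ring
        rw [e1, subSeq_even, subSeq_odd, h1, hval, Sym2.eq_swap]
  · rw [dif_neg he, if_neg]
    rintro ⟨i, hi, hie⟩
    apply he
    rw [hie]
    exact h.adj i

lemma numCycles_le_subd {V : Type*} [Fintype V] (G : SimpleGraph V) [Fintype (V ⊕ G.edgeSet)] :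
    numCycles G ≤ numCycles (subd G) := by
  classical
  rw [numCycles_eq_card, numCycles_eq_card]
  have : cycSet G ⊆ (cycSet (subd G)).image (pull G) := by
    intro P hP
    obtain ⟨L, u, hu, rfl⟩ := mem_cycSet.1 hP
    rw [Finset.mem_image]
    exact ⟨_, mem_cycSet.2 ⟨_, _, isCyc_subSeq hu, rfl⟩, pull_cpar hu⟩
  exact (Finset.card_le_card this).trans Finset.card_image_le

lemma noShort_subd {g : ℕ} (hG : NoShort G g) : NoShort (subd G) (2 * g) := by
  rw [noShort_iff]
  have key : ∀ L w, IsCyc (subd G) L w → (∃ v, w 0 = Sum.inl v) → 2 * g ≤ L := by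
    intro L w hw h0
    have h3 := hw.three
    have hpar : ∀ i, (∃ v, w (2 * i) = Sum.inl v) ∧ ∃ e, w (2 * i + 1) = Sum.inr e := by
      have hodd : ∀ i, (∃ v, w i = Sum.inl v) → ∃ e, w (i + 1) = Sum.inr e := by
        rintro i ⟨v, hv⟩
        have := hw.adj i
        rw [hv] at this
        rcases hwi : w (i + 1) with b | b
        · rw [hwi] at this
          exact absurd this subd_ll
        · exact ⟨b, rfl⟩
      have heven : ∀ i, (∃ e, w i = Sum.inr e) → ∃ v, w (i + 1) = Sum.inl v := by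
        rintro i ⟨v, hv⟩
        have := hw.adj i
        rw [hv] at this
        rcases hwi : w (i + 1) with b | b
        · exact ⟨b, rfl⟩
        · rw [hwi] at this
          exact absurd this subd_rr
      intro i
      induction i with
      | zero => exact ⟨h0, hodd 0 h0⟩
      | succ i ih =>
        have h1 := heven _ ih.2
        have e : 2 * i + 1 + 1 = 2 * (i + 1) := by ring
        rw [e] at h1
        exact ⟨h1, hodd _ h1⟩
    choose hv he using hpar
    choose u hu using hv
    choose f hf using he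
    have hLe : ∃ k, L = 2 * k := by
      rcases even_or_odd' L with ⟨k, hk⟩ | ⟨k, hk⟩
      · exact ⟨k, hk⟩
      · exfalso
        have h1 := hw.per 0
        rw [zero_add, hk, hf k, h0.choose_spec] at h1
        exact absurd h1 (by simp)
    obtain ⟨k, rfl⟩ := hLe
    have hmem : ∀ i, u i ∈ (f i).1 ∧ u (i + 1) ∈ (f i).1 := by
      intro i
      have h1 := hw.adj (2 * i)
      rw [hu, hf, subd_lr] at h1
      have h2 := hw.adj (2 * i + 1)
      have e : 2 * i + 1 + 1 = 2 * (i + 1) := by ring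
      rw [e, hu, hf, subd_rl] at h2
      exact ⟨h1, h2⟩
    have hne : ∀ i, u i ≠ u (i + 1) := by
      intro i hi
      have h1 := hw.shift_add (2 * i)
      have h2 := h1.inj 0 2 (by omega) (by omega) (by
        have e : 2 + 2 * i = 2 * (i + 1) := by ring
        simp only [zero_add, e]
        rw [hu, hu, hi])
      omega
    have hedge : ∀ i, (f i).1 = s(u i, u (i + 1)) := fun i =>
      (Sym2.mem_and_mem_iff (hne i)).1 (hmem i)
    have hadj : ∀ i, G.Adj (u i) (u (i + 1)) := by
      intro i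
      rw [← mem_edgeSet, ← hedge]
      exact (f i).2
    have hper : ∀ i, u (i + k) = u i := by
      intro i
      have h1 := hw.per (2 * i)
      have e : 2 * i + 2 * k = 2 * (i + k) := by ring
      rw [e, hu, hu] at h1
      exact Sum.inl_injective h1
    have hk3 : 3 ≤ k := by
      by_contra hlt
      have hk2 : k = 2 := by omega
      subst hk2
      have h1 : (f 0).1 = (f 1).1 := by
        rw [hedge, hedge]
        have h2 := hper 0
        have e : (0 : ℕ) + 2 = 1 + 1 := rfl
        rw [e] at h2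
        rw [h2, Sym2.eq_swap]
      have h2 : w 1 = w 3 := by
        have e1 : (1 : ℕ) = 2 * 0 + 1 := rfl
        have e3 : (3 : ℕ) = 2 * 1 + 1 := rfl
        rw [e1, e3, hf, hf]
        rw [Subtype.ext h1]
      have := hw.inj 1 3 (by omega) (by omega) h2
      omega
    have hcyc : IsCyc G k u := by
      refine ⟨hk3, hper, hadj, ?_⟩
      intro i j hi hj hij
      have := hw.inj (2 * i) (2 * j) (by omega) (by omega) (by rw [hu, hu, hij])
      omega
    have := noShort_iff.1 hG k u hcyc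
    omega
  intro L w hw
  rcases h0 : w 0 with v | e
  · exact key L w hw ⟨v, h0⟩
  · apply key L _ hw.shift
    have := hw.adj 0
    rw [h0] at this
    rw [zero_add] at this ⊢
    rcases hwi : w 1 with b | b
    · exact ⟨b, rfl⟩
    · rw [hwi] at this
      exact absurd this subd_rr

lemma card_edges_subd {V : Type*} [Fintype V] (G : SimpleGraph V) :
    Nat.card (subd G).edgeSet ≤ 2 * Nat.card G.edgeSet := by
  classical
  have h1 : Nat.card G.Dart = 2 * Nat.card G.edgeSet := by
    rw [Nat.card_eq_fintype_card, Nat.card_eq_fintype_card, G.dart_card_eq_twice_card_edges,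
      ← edgeFinset_card]
  rw [← h1]
  have hs : ∀ e : (subd G).edgeSet, ∃ d : G.Dart, e.1 = s(Sum.inl d.fst, Sum.inr ⟨d.edge, d.edge_mem⟩) := by
    rintro ⟨e, he⟩
    induction e using Sym2.ind with
    | _ a b =>
      have key : ∀ (v : V) (f : G.edgeSet), v ∈ f.1 →
          ∃ d : G.Dart, s(Sum.inl v, Sum.inr f) = s(Sum.inl d.fst, Sum.inr ⟨d.edge, d.edge_mem⟩) := by
        rintro v ⟨f, hf⟩ hv
        obtain ⟨w, hw⟩ := hv
        simp only at hw
        subst hw
        exact ⟨⟨(v, w), hf⟩, rfl⟩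
      rcases a with a | a <;> rcases b with b | b
      · exact absurd he (subd_ll (G := G) (v := a) (w := b))
      · exact key a b he
      · obtain ⟨d, hd⟩ := key b a he
        exact ⟨d, by simp only; rw [Sym2.eq_swap]; exact hd⟩
      · exact absurd he (subd_rr (G := G) (v := a) (w := b))
  choose d hd using hs
  apply Nat.card_le_card_of_injective d
  intro e e' hee
  apply Subtype.ext
  rw [hd e, hd e', hee]

/-- There is a graph with at most `N` vertices, at most `E` edges, no cycle shorter than `g` and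
at least `C` cycles. -/
def Ex (N E g C : ℕ) : Prop := ∃ (U : Type) (_ : Fintype U) (H : SimpleGraph U),
  Fintype.card U ≤ N ∧ Nat.card H.edgeSet ≤ E ∧ NoShort H g ∧ C ≤ numCycles H

lemma Ex.double {N E g C : ℕ} (h : Ex N E g C) : Ex (N + E) (2 * E) (2 * g) C := by
  classical
  obtain ⟨U, hU, H, h1, h2, h3, h4⟩ := h
  refine ⟨U ⊕ H.edgeSet, inferInstance, subd H, ?_, ?_, noShort_subd h3, ?_⟩
  · rw [Fintype.card_sum]
    rw [Nat.card_eq_fintype_card] at h2
    omega
  · have := card_edges_subd H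
    omega
  · exact h4.trans (numCycles_le_subd H)

lemma Ex.iterate {N E g C : ℕ} (h : Ex N E g C) (j : ℕ) :
    Ex (N + (2 ^ j - 1) * E) (2 ^ j * E) (2 ^ j * g) C := by
  induction j with
  | zero => simpa using h
  | succ j ih =>
    have h1 := ih.double
    have hp : 1 ≤ 2 ^ j := Nat.one_le_two_pow
    have e1 : N + (2 ^ j - 1) * E + 2 ^ j * E = N + (2 ^ (j + 1) - 1) * E := by
      have e : 2 ^ (j + 1) - 1 = (2 ^ j - 1) + 2 ^ j := by
        rw [pow_succ]; omega
      rw [e, add_mul]; ring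
    have e2 : 2 * (2 ^ j * E) = 2 ^ (j + 1) * E := by rw [pow_succ]; ring
    have e3 : 2 * (2 ^ j * g) = 2 ^ (j + 1) * g := by rw [pow_succ]; ring
    rw [e1, e2, e3] at h1
    exact h1

lemma NoShort.mono_g {g g' : ℕ} (hG : NoShort G g') (h : g ≤ g') : NoShort G g :=
  fun m f hf hadj => h.trans (hG m f hf hadj)

lemma Ex.le_maxCycles {N E g C : ℕ} (h : Ex N E g C) : C ≤ maxCycles N g := by
  obtain ⟨U, hU, H, h1, -, h3, h4⟩ := h
  exact h4.trans (numCycles_le_maxCycles h3 h1)

lemma ex_maxCycles (N g : ℕ) : Ex N (maxEdges N g) g (maxCycles N g) := by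
  classical
  obtain ⟨H, hH, hc⟩ := exists_maxCycles N g
  refine ⟨Fin N, inferInstance, H, by rw [Fintype.card_fin], ?_, hH, hc.ge⟩
  rw [Nat.card_eq_fintype_card, ← edgeFinset_card]
  exact card_edges_le_maxEdges' hH (by rw [Fintype.card_fin])

lemma Ex.mono {N E g C N' E' g' C' : ℕ} (h : Ex N E g C) (hN : N ≤ N') (hE : E ≤ E')
    (hg : g' ≤ g) (hC : C' ≤ C) : Ex N' E' g' C' := by
  obtain ⟨U, hU, H, h1, h2, h3, h4⟩ := h
  exact ⟨U, hU, H, h1.trans hN, h2.trans hE, NoShort.mono_g h3 hg, hC.trans h4⟩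

/-- Subdivision inequality. -/
lemma maxCycles_subd {N n γ g : ℕ} (j : ℕ) (hn : N + (2 ^ j - 1) * maxEdges N γ ≤ n)
    (hg : g ≤ 2 ^ j * γ) : maxCycles N γ ≤ maxCycles n g :=
  (((ex_maxCycles N γ).iterate j).mono hn le_rfl hg le_rfl).le_maxCycles

end Pool.Agent.Helper64.Cyc
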