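import Pool.Agent.Helper64.Cyc.Subdiv

/-!
# Paths with one or two chords
-/

namespace Pool.Agent.Helper64.Cyc

open SimpleGraph Finset Pool.Agent.Helper72.Cyc

variable {V : Type*} {G : SimpleGraph V}

/-- A cycle that crosses a cut does so at least twice. -/
lemma IsCyc.cross {L : ℕ} {w : ℕ → V} (h : IsCyc G L w) (χ : V → Prop) {i : ℕ} (hi : i < L)
    (hc : ¬ (χ (w i) ↔ χ (w (i + 1)))) :
    ∃ j, j < L ∧ j ≠ i ∧ ¬ (χ (w j) ↔ χ (w (j + 1))) := by
  by_contra hcon
  push Not at hcon
  apply hc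
  have h3 := h.three
  have hmod : ∀ t, w (t % L) = w t := by
    intro t
    have : ∀ q r : ℕ, w (r + L * q) = w r := by
      intro q r
      induction q with
      | zero => simp
      | succ q ih =>
        have e : r + L * (q + 1) = (r + L * q) + L := by ring
        rw [e, h.per, ih]
    conv_rhs => rw [← Nat.mod_add_div t L]
    exact (this _ _).symm
  have hmod1 : ∀ t, w (t % L + 1) = w (t + 1) := by
    intro t
    rw [← hmod (t % L + 1), ← hmod (t + 1)]
    congr 1
    rw [Nat.add_mod, Nat.mod_mod, ← Nat.add_mod]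
  have hstep : ∀ s, s + 1 < L → (χ (w (i + 1 + s)) ↔ χ (w (i + 1 + s + 1))) := by
    intro s hs
    have h1 := hcon ((i + 1 + s) % L) (Nat.mod_lt _ (by omega)) (by
      intro he
      have h2 : (i + 1 + s) % L = i % L := by rw [he, Nat.mod_eq_of_lt hi]
      have h3 : (i + (1 + s)) % L = (i + 0) % L := by rw [add_zero, ← add_assoc]; exact h2
      have h4 : (1 + s) % L = 0 % L := Nat.ModEq.add_left_cancel' i h3
      rw [Nat.zero_mod, Nat.mod_eq_of_lt (by omega)] at h4
      omega)
    rw [hmod, hmod1] at h1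
    exact h1
  have hall : ∀ s, s < L → (χ (w (i + 1)) ↔ χ (w (i + 1 + s))) := by
    intro s
    induction s with
    | zero => intro _; rfl
    | succ s ih =>
      intro hs
      exact (ih (by omega)).trans (hstep s hs)
  have h1 := hall (L - 1) (by omega)
  have e : i + 1 + (L - 1) = i + L := by omega
  rw [e, h.per] at h1
  exact h1.symm

/-- The edge `a b` is used by the sequence. -/
def Used (L : ℕ) (w : ℕ → V) (a b : V) : Prop := ∃ i < L, s(w i, w (i + 1)) = s(a, b)

lemma used_symm {L : ℕ} {w : ℕ → V} {a b : V} (h : Used L w a b) : Used L w b a := by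
  obtain ⟨i, hi, he⟩ := h
  exact ⟨i, hi, by rw [he, Sym2.eq_swap]⟩

/-- If an edge crosses a cut then another used edge does. -/
lemma IsCyc.cross' {L : ℕ} {w : ℕ → V} (h : IsCyc G L w) (χ : V → Prop) {a b : V}
    (hab : Used L w a b) (ha : χ a) (hb : ¬ χ b) :
    ∃ c d, Used L w c d ∧ χ c ∧ ¬ χ d ∧ G.Adj c d ∧ ¬ (c = a ∧ d = b) := by
  obtain ⟨i, hi, he⟩ := hab
  have hc : ¬ (χ (w i) ↔ χ (w (i + 1))) := by
    rw [Sym2.eq_iff] at he
    rcases he with ⟨h1, h2⟩ | ⟨h1, h2⟩
    · rw [h1, h2]; tauto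
    · rw [h1, h2]; tauto
  obtain ⟨j, hj, hji, hc'⟩ := h.cross χ hi hc
  by_cases h1 : χ (w j)
  · refine ⟨w j, w (j + 1), ⟨j, hj, rfl⟩, h1, by tauto, h.adj j, ?_⟩
    rintro ⟨e1, e2⟩
    apply hji
    apply h.edge_inj hj hi
    rw [e1, e2, he]
  · refine ⟨w (j + 1), w j, ⟨j, hj, Sym2.eq_swap⟩, by tauto, h1, (h.adj j).symm, ?_⟩
    rintro ⟨e1, e2⟩
    apply hji
    apply h.edge_inj hj hi
    rw [e1, e2, he, Sym2.eq_swap]

lemma IsCyc.visited {L : ℕ} {w : ℕ → V} (h : IsCyc G L w) {a b : V} (hab : Used L w a b) :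
    (∃ i < L, w i = a) ∧ ∃ i < L, w i = b := by
  have h3 := h.three
  have h0 : w L = w 0 := by have := h.per 0; rwa [zero_add] at this
  have hsucc : ∀ i < L, ∃ j < L, w j = w (i + 1) := by
    intro i hi
    rcases Nat.lt_or_ge (i + 1) L with h1 | h1
    · exact ⟨i + 1, h1, rfl⟩
    · have e : i + 1 = L := by omega
      exact ⟨0, by omega, by rw [e, h0]⟩
  obtain ⟨i, hi, he⟩ := hab
  rw [Sym2.eq_iff] at he
  rcases he with ⟨h1, h2⟩ | ⟨h1, h2⟩
  · obtain ⟨j, hj, hj'⟩ := hsucc i hi
    exact ⟨⟨i, hi, h1⟩, ⟨j, hj, hj'.trans h2⟩⟩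
  · obtain ⟨j, hj, hj'⟩ := hsucc i hi
    exact ⟨⟨j, hj, hj'.trans h2⟩, ⟨i, hi, h1⟩⟩

/-- The relation of a path with a set of chords. -/
def pathRel (n : ℕ) (C : ℕ → ℕ → Prop) (i j : Fin n) : Prop := i.val + 1 = j.val ∨ C i.val j.val

/-- A path with a set of chords. -/
def pathCh (n : ℕ) (C : ℕ → ℕ → Prop) : SimpleGraph (Fin n) := SimpleGraph.fromRel (pathRel n C)

lemma pathCh_adj {n : ℕ} {C : ℕ → ℕ → Prop} {i j : Fin n} :
    (pathCh n C).Adj i j ↔ i ≠ j ∧ (pathRel n C i j ∨ pathRel n C j i) := Iff.rfl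

/-- The cycle closed by a chord. -/
lemma isCyc_chord {n : ℕ} {C : ℕ → ℕ → Prop} {a b : ℕ} (hab : a + 2 ≤ b) (hb : b < n)
    (hC : C a b) : IsCyc (pathCh n C) (b - a + 1)
      (fun i => ⟨a + i % (b - a + 1), by
        have := Nat.mod_lt i (show 0 < b - a + 1 by omega); omega⟩) := by
  refine ⟨by omega, ?_, ?_, ?_⟩
  · intro i
    apply Fin.ext
    simp
  · intro i
    rw [pathCh_adj]
    have h1 := Nat.mod_lt i (show 0 < b - a + 1 by omega)
    have h2 : (i + 1) % (b - a + 1) = (i % (b - a + 1) + 1) % (b - a + 1) := by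
      rw [Nat.mod_add_mod]
    rcases Nat.lt_or_ge (i % (b - a + 1) + 1) (b - a + 1) with h3 | h3
    · rw [Nat.mod_eq_of_lt h3] at h2
      constructor
      · intro he
        have := congrArg Fin.val he
        simp only at this
        omega
      · left; left
        simp only
        omega
    · have e : i % (b - a + 1) + 1 = b - a + 1 := by omega
      rw [e, Nat.mod_self] at h2
      constructor
      · intro he
        have := congrArg Fin.val he
        simp only at this
        omega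
      · right; right
        simp only
        rw [h2]
        have e1 : a + 0 = a := rfl
        have e2 : a + i % (b - a + 1) = b := by omega
        rw [e1, e2]
        exact hC
  · intro i j hi hj hij
    have := congrArg Fin.val hij
    simp only at this
    rw [Nat.mod_eq_of_lt hi, Nat.mod_eq_of_lt hj] at this
    omega

/-- The two chords of a theta graph. -/
def thC (m k n : ℕ) (i j : ℕ) : Prop := (i = 0 ∧ j = m - 1) ∨ (i = k ∧ j = n - 1)

/-- Used edges in terms of natural numbers. -/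
def UN {n : ℕ} (L : ℕ) (w : ℕ → Fin n) (i j : ℕ) : Prop :=
  ∃ (hi : i < n) (hj : j < n), Used L w ⟨i, hi⟩ ⟨j, hj⟩

lemma UN.cross {n m k : ℕ} {L : ℕ} {w : ℕ → Fin n} (h : IsCyc (pathCh n (thC m k n)) L w)
    {c d : ℕ} (hcd : UN L w c d) {j : ℕ} (hc : c ≤ j) (hd : j < d) :
    (UN L w j (j + 1) ∧ ¬ (c = j ∧ d = j + 1)) ∨
      (UN L w 0 (m - 1) ∧ ¬ (c = 0 ∧ d = m - 1) ∧ j < m - 1) ∨
      (UN L w k (n - 1) ∧ ¬ (c = k ∧ d = n - 1) ∧ k ≤ j) := by
  obtain ⟨hcn, hdn, hu⟩ := hcd
  obtain ⟨c', d', h1, h2, h3, h4, h5⟩ := h.cross' (fun v => v.val ≤ j) hu hc (by simp only; omega)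
  have h2 : c'.val ≤ j := h2
  have h3 : ¬ d'.val ≤ j := h3
  rw [pathCh_adj] at h4
  have h5' : ¬ (c'.val = c ∧ d'.val = d) := by
    rintro ⟨e1, e2⟩
    exact h5 ⟨Fin.ext e1, Fin.ext e2⟩
  have hUN : UN L w c'.val d'.val := ⟨c'.2, d'.2, h1⟩
  obtain ⟨-, (h6 | h6) | (h6 | h6)⟩ := h4
  · left
    have e1 : c'.val = j := by omega
    have e2 : d'.val = j + 1 := by omega
    rw [e1, e2] at hUN
    exact ⟨hUN, by rw [e1, e2] at h5'; rintro ⟨e3, e4⟩; exact h5' ⟨e3.symm, e4.symm⟩⟩
  · rcases h6 with ⟨e1, e2⟩ | ⟨e1, e2⟩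
    · right; left
      rw [e1, e2] at hUN h5'
      exact ⟨hUN, by rintro ⟨e3, e4⟩; exact h5' ⟨e3.symm, e4.symm⟩, by omega⟩
    · right; right
      rw [e1, e2] at hUN h5'
      exact ⟨hUN, by rintro ⟨e3, e4⟩; exact h5' ⟨e3.symm, e4.symm⟩, by omega⟩
  · omega
  · exfalso
    rcases h6 with ⟨e1, e2⟩ | ⟨e1, e2⟩
    · omega
    · have := c'.2
      omega

lemma noShort_theta {g n m k : ℕ} (hkm : k + 2 ≤ m) (hmn : m ≤ n) (hm : 3 ≤ m)
    (hkn : k + 3 ≤ n) (h1 : g ≤ m) (h2 : g + k ≤ n) (h3 : g + m ≤ k + n + 2) :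
    NoShort (pathCh n (thC m k n)) g := by
  classical
  rw [noShort_iff]
  intro L w hw
  have hL3 := hw.three
  set S : Finset ℕ := (Finset.range L).image (fun i => (w i).val) with hS
  have hSL : S.card ≤ L := by
    have := Finset.card_image_le (s := Finset.range L) (f := fun i => (w i).val)
    rwa [Finset.card_range] at this
  have hvis : ∀ i j, UN L w i j → i ∈ S ∧ j ∈ S := by
    rintro i j ⟨hi, hj, hu⟩
    obtain ⟨⟨a, ha, ha'⟩, ⟨b, hb, hb'⟩⟩ := hw.visited hu
    constructor
    · rw [hS, Finset.mem_image]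
      exact ⟨a, Finset.mem_range.2 ha, by rw [ha']⟩
    · rw [hS, Finset.mem_image]
      exact ⟨b, Finset.mem_range.2 hb, by rw [hb']⟩
  have hAB : UN L w 0 (m - 1) ∨ UN L w k (n - 1) := by
    have hj : (∃ j, UN L w j (j + 1)) ∨ UN L w 0 (m - 1) ∨ UN L w k (n - 1) := by
      have h0 := hw.adj 0
      rw [pathCh_adj] at h0
      have hu : UN L w (w 0).val (w 1).val := ⟨(w 0).2, (w 1).2, 0, by omega, rfl⟩
      have hu' : UN L w (w 1).val (w 0).val := ⟨(w 1).2, (w 0).2, 0, by omega, Sym2.eq_swap⟩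
      obtain ⟨-, (h6 | h6) | (h6 | h6)⟩ := h0
      · left
        rw [zero_add] at h6
        exact ⟨(w 0).val, by rw [h6]; exact hu⟩
      · right
        rw [zero_add] at h6
        rcases h6 with ⟨e1, e2⟩ | ⟨e1, e2⟩
        · left; rw [e1, e2] at hu; exact hu
        · right; rw [e1, e2] at hu; exact hu
      · left
        rw [zero_add] at h6
        exact ⟨(w 1).val, by rw [h6]; exact hu'⟩
      · right
        rw [zero_add] at h6
        rcases h6 with ⟨e1, e2⟩ | ⟨e1, e2⟩
        · left; rw [e1, e2] at hu'; exact hu'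
        · right; rw [e1, e2] at hu'; exact hu'
    rcases hj with ⟨j, hj⟩ | h | h
    · rcases UN.cross hw hj (j := j) le_rfl (by omega) with h | h | h
      · exact absurd ⟨rfl, rfl⟩ h.2
      · left; exact h.1
      · right; exact h.1
    · left; exact h
    · right; exact h
  by_cases hA : UN L w 0 (m - 1)
  · by_cases hB : UN L w k (n - 1)
    · have e1 : ∀ j, j < k → UN L w j (j + 1) := by
        intro j hj
        rcases UN.cross hw hA (j := j) (by omega) (by omega) with h | h | h
        · exact h.1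
        · exact absurd ⟨rfl, rfl⟩ h.2.1
        · omega
      have e2 : ∀ j, m - 1 ≤ j → j < n - 1 → UN L w j (j + 1) := by
        intro j hj hj'
        rcases UN.cross hw hB (j := j) (by omega) (by omega) with h | h | h
        · exact h.1
        · omega
        · exact absurd ⟨rfl, rfl⟩ h.2.1
      have hsub : Finset.range (k + 1) ∪ Finset.Ico (m - 1) n ⊆ S := by
        intro x hx
        rw [Finset.mem_union, Finset.mem_range, Finset.mem_Ico] at hx
        rcases hx with hx | hx
        · rcases Nat.lt_or_ge x k with h | h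
          · exact (hvis _ _ (e1 x h)).1
          · have : x = k := by omega
            rw [this]; exact (hvis _ _ hB).1
        · rcases Nat.eq_or_lt_of_le hx.1 with h | h
          · rw [← h]; exact (hvis _ _ hA).2
          · have := (hvis _ _ (e2 (x - 1) (by omega) (by omega))).2
            have e : x - 1 + 1 = x := by omega
            rwa [e] at this
      have hcard := Finset.card_le_card hsub
      rw [Finset.card_union_of_disjoint, Finset.card_range, Nat.card_Ico] at hcard
      · omega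
      · rw [Finset.disjoint_left]
        intro x hx hx'
        rw [Finset.mem_range] at hx
        rw [Finset.mem_Ico] at hx'
        omega
    · have e1 : ∀ j, j < m - 1 → UN L w j (j + 1) := by
        intro j hj
        rcases UN.cross hw hA (j := j) (by omega) (by omega) with h | h | h
        · exact h.1
        · exact absurd ⟨rfl, rfl⟩ h.2.1
        · exact absurd h.1 hB
      have hsub : Finset.range m ⊆ S := by
        intro x hx
        rw [Finset.mem_range] at hx
        rcases Nat.lt_or_ge x (m - 1) with h | h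
        · exact (hvis _ _ (e1 x h)).1
        · have : x = m - 1 := by omega
          rw [this]; exact (hvis _ _ hA).2
      have hcard := Finset.card_le_card hsub
      rw [Finset.card_range] at hcard
      omega
  · have hB : UN L w k (n - 1) := by tauto
    have e1 : ∀ j, k ≤ j → j < n - 1 → UN L w j (j + 1) := by
      intro j hj hj'
      rcases UN.cross hw hB (j := j) (by omega) (by omega) with h | h | h
      · exact h.1
      · exact absurd h.1 hA
      · exact absurd ⟨rfl, rfl⟩ h.2.1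
    have hsub : Finset.Ico k n ⊆ S := by
      intro x hx
      rw [Finset.mem_Ico] at hx
      rcases Nat.lt_or_ge x (n - 1) with h | h
      · exact (hvis _ _ (e1 x hx.1 h)).1
      · have : x = n - 1 := by omega
        rw [this]; exact (hvis _ _ hB).2
    have hcard := Finset.card_le_card hsub
    rw [Nat.card_Ico] at hcard
    omega

lemma two_le_theta {n m k : ℕ} (hk : 1 ≤ k) (hmn : m ≤ n) (hm : 3 ≤ m)
    (hkn : k + 3 ≤ n) : 2 ≤ numCycles (pathCh n (thC m k n)) := by
  classical
  have c1 : IsCyc (pathCh n (thC m k n)) (m - 1 - 0 + 1) _ :=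
    isCyc_chord (a := 0) (b := m - 1) (by omega) (by omega) (Or.inl ⟨rfl, rfl⟩)
  have c2 : IsCyc (pathCh n (thC m k n)) (n - 1 - k + 1) _ :=
    isCyc_chord (a := k) (b := n - 1) (by omega) (by omega) (Or.inr ⟨rfl, rfl⟩)
  rw [numCycles_eq_card]
  have hne : cpar (m - 1 - 0 + 1) (fun i => (⟨0 + i % (m - 1 - 0 + 1), by
        have := Nat.mod_lt i (show 0 < m - 1 - 0 + 1 by omega); omega⟩ : Fin n)) ≠
      cpar (n - 1 - k + 1) (fun i => (⟨k + i % (n - 1 - k + 1), by
        have := Nat.mod_lt i (show 0 < n - 1 - k + 1 by omega); omega⟩ : Fin n)) := by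
    intro he
    have h0 := congrFun he s((⟨0, by omega⟩ : Fin n), (⟨m - 1, by omega⟩ : Fin n))
    rw [c1.cpar_apply, c2.cpar_apply] at h0
    rw [if_pos, if_neg] at h0
    · exact absurd h0 one_ne_zero
    · rintro ⟨i, hi, hi'⟩
      rw [Sym2.eq_iff] at hi'
      rcases hi' with ⟨h1, h2⟩ | ⟨h1, h2⟩
      · have h1' := congrArg Fin.val h1
        simp only at h1'
        omega
      · have h1' := congrArg Fin.val h1
        simp only at h1'
        omega
    · refine ⟨m - 1, by omega, ?_⟩
      have e1 : (m - 1) % (m - 1 - 0 + 1) = m - 1 := Nat.mod_eq_of_lt (by omega)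
      have e2 : (m - 1 + 1) % (m - 1 - 0 + 1) = 0 := by
        have : m - 1 + 1 = m - 1 - 0 + 1 := by omega
        rw [this, Nat.mod_self]
      rw [Sym2.eq_iff]
      right
      constructor
      · apply Fin.ext; simp only; rw [e2]
      · apply Fin.ext; simp only; rw [e1]; omega
  have hsub : {cpar (m - 1 - 0 + 1) (fun i => (⟨0 + i % (m - 1 - 0 + 1), by
        have := Nat.mod_lt i (show 0 < m - 1 - 0 + 1 by omega); omega⟩ : Fin n)),
      cpar (n - 1 - k + 1) (fun i => (⟨k + i % (n - 1 - k + 1), by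
        have := Nat.mod_lt i (show 0 < n - 1 - k + 1 by omega); omega⟩ : Fin n))} ⊆
        cycSet (pathCh n (thC m k n)) := by
    intro P hP
    rw [Finset.mem_insert, Finset.mem_singleton] at hP
    rw [mem_cycSet]
    rcases hP with rfl | rfl
    · exact ⟨_, _, c1, rfl⟩
    · exact ⟨_, _, c2, rfl⟩
  have := Finset.card_le_card hsub
  rwa [Finset.card_pair hne] at this

/-- Two cycles exist as soon as `3g ≤ 2n + 2`. -/
lemma two_le_maxCycles {n g : ℕ} (hg : 3 ≤ g) (hn : 3 * g ≤ 2 * n + 2) : 2 ≤ maxCycles n g := by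
  set p := (g + 1) / 2 with hp
  set r := g / 2 with hr
  have hpr : p + r = g := by omega
  have h1 := noShort_theta (g := g) (n := p + p + r - 1) (m := p + p) (k := p - 1)
    (by omega) (by omega) (by omega) (by omega) (by omega) (by omega) (by omega)
  have h2 := two_le_theta (n := p + p + r - 1) (m := p + p) (k := p - 1)
    (by omega) (by omega) (by omega) (by omega)
  exact h2.trans (numCycles_le_maxCycles h1 (by rw [Fintype.card_fin]; omega))

end Pool.Agent.Helper64.Cyc
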