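import Pool.Agent.Helper64.Cyc.Small
import Pool.Agent.Helper72.Cyc.Moore

/-!
# Balls around a directed edge in a graph without short cycles
-/

namespace Pool.Agent.Helper64.Cyc

open SimpleGraph Finset Pool.Agent.Helper72.Cyc

variable {V : Type*} {G : SimpleGraph V}

/-- A non-backtracking sequence. -/
structure NBS (G : SimpleGraph V) (l : ℕ) (u : ℕ → V) : Prop where
  adj : ∀ i < l, G.Adj (u i) (u (i + 1))
  nb : ∀ i, i + 2 ≤ l → u (i + 2) ≠ u i

lemma NBS.ne {g l : ℕ} {u : ℕ → V} (hG : NoShort G g) (h : NBS G l u) (hl : l < g) {i j : ℕ}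
    (hij : i < j) (hj : j ≤ l) : u i ≠ u j := by
  intro he
  have := nb_repeat hG h.adj h.nb hij hj he
  omega

lemma con_psum_fin {u : ℕ → V} {l : ℕ} (hadj : ∀ i < l, G.Adj (u i) (u (i + 1))) :
    Con G (u 0) (u l) l (psum u l) := by
  induction l with
  | zero => rw [psum_zero]; exact Con.refl _
  | succ l ih =>
    have h1 := (ih (fun i hi => hadj i (by omega))).trans (Con.adj (hadj l (by omega)))
    have h2 : psum u (l + 1) = psum u l + ind (u l) (u (l + 1)) := by
      unfold psum
      rw [Finset.sum_range_succ]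
    rw [h2]; exact h1

/-- The first step is determined by the end. -/
lemma nbs_first {g l l' : ℕ} {u u' : ℕ → V} (hG : NoShort G g) (h : NBS G l u)
    (h' : NBS G l' u') (hl : 1 ≤ l) (hl' : 1 ≤ l') (hg : l + l' < g) (h0 : u 0 = u' 0)
    (he : u l = u' l') : u 1 = u' 1 := by
  classical
  have c1 := con_psum_fin h.adj
  have c2 := con_psum_fin h'.adj
  rw [← h0, ← he] at c2
  have hp := Con.unique hG c1 c2 hg
  have h1 : psum u l s(u 0, u (0 + 1)) = 1 := by
    apply psum_one_of (by omega)
    intro i hi hie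
    by_contra hi0
    rw [Sym2.eq_iff] at hie
    rcases hie with ⟨h1, -⟩ | ⟨-, h2⟩
    · exact h.ne hG (by omega) (show 0 < i by omega) (by omega) h1.symm
    · exact h.ne hG (by omega) (show 0 < i + 1 by omega) (by omega) h2.symm
  rw [hp] at h1
  have h2 : ∃ i < l', s(u 0, u (0 + 1)) = s(u' i, u' (i + 1)) := by
    by_contra hcon
    push Not at hcon
    rw [psum_zero_of hcon] at h1
    exact absurd h1.symm one_ne_zero
  obtain ⟨i, hi, hie⟩ := h2
  have hmem : u' 0 = u' i ∨ u' 0 = u' (i + 1) := by
    have : u' 0 ∈ s(u' i, u' (i + 1)) := by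
      rw [← hie, ← h0]; exact Sym2.mem_mk_left _ _
    exact Sym2.mem_iff.1 this
  have hi0 : i = 0 := by
    by_contra hi0
    rcases hmem with h3 | h3
    · exact h'.ne hG (by omega) (show 0 < i by omega) (by omega) h3
    · exact h'.ne hG (by omega) (show 0 < i + 1 by omega) (by omega) h3
  subst hi0
  rw [h0, zero_add, Sym2.congr_right] at hie
  exact hie

section

variable [Fintype V] [DecidableEq V] [DecidableRel G.Adj]

variable (G) in
/-- Ends of non-backtracking walks with `k` more steps after the directed edge `x y`. -/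
def T : ℕ → V → V → Finset V
  | 0, _, y => {y}
  | k + 1, x, y => ((G.neighborFinset y).erase x).biUnion (fun z => T k y z)

lemma T_zero (x y : V) : T G 0 x y = {y} := rfl

lemma T_succ (k : ℕ) (x y : V) :
    T G (k + 1) x y = ((G.neighborFinset y).erase x).biUnion (fun z => T G k y z) := rfl

lemma exists_nbs_of_mem {k : ℕ} {x y w : V} (hxy : G.Adj x y) (hw : w ∈ T G k x y) :
    ∃ u : ℕ → V, NBS G (k + 1) u ∧ u 0 = x ∧ u 1 = y ∧ u (k + 1) = w := by
  induction k generalizing x y with
  | zero =>
    rw [T_zero, Finset.mem_singleton] at hw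
    refine ⟨fun i => if i = 0 then x else y, ⟨?_, ?_⟩, ?_, ?_, ?_⟩
    · intro i hi
      have : i = 0 := by omega
      subst this
      simpa using hxy
    · intro i hi; omega
    · simp
    · simp
    · simp [hw]
  | succ k ih =>
    rw [T_succ, Finset.mem_biUnion] at hw
    obtain ⟨z, hz, hwz⟩ := hw
    rw [Finset.mem_erase, mem_neighborFinset] at hz
    obtain ⟨u, hu, h0, h1, h2⟩ := ih hz.2 hwz
    refine ⟨fun i => if i = 0 then x else u (i - 1), ⟨?_, ?_⟩, ?_, ?_, ?_⟩
    · intro i hi
      rcases Nat.eq_zero_or_pos i with h | h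
      · subst h
        simp only [if_true, zero_add]
        rw [if_neg (by omega)]
        rw [Nat.sub_self, h0]; exact hxy
      · rw [if_neg (by omega), if_neg (by omega)]
        have := hu.adj (i - 1) (by omega)
        have e : i - 1 + 1 = i + 1 - 1 := by omega
        rwa [e] at this
    · intro i hi
      rw [if_neg (by omega)]
      rcases Nat.eq_zero_or_pos i with h | h
      · subst h
        rw [if_pos rfl]
        have e : 0 + 2 - 1 = 1 := rfl
        rw [e, h1]
        exact hz.1
      · rw [if_neg (by omega)]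
        have := hu.nb (i - 1) (by omega)
        have e : i - 1 + 2 = i + 2 - 1 := by omega
        rwa [e] at this
    · simp
    · simp [h0]
    · simp only
      rw [if_neg (by omega)]
      have e : k + 1 + 1 - 1 = k + 1 := rfl
      rw [e]; exact h2

lemma T_disj {g k : ℕ} (hG : NoShort G g) (hk : 2 * (k + 1) < g) {y z z' : V}
    (hz : G.Adj y z) (hz' : G.Adj y z') (hne : z ≠ z') : Disjoint (T G k y z) (T G k y z') := by
  rw [Finset.disjoint_left]
  intro w hw hw'
  obtain ⟨u, hu, h0, h1, h2⟩ := exists_nbs_of_mem hz hw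
  obtain ⟨u', hu', h0', h1', h2'⟩ := exists_nbs_of_mem hz' hw'
  have := nbs_first hG hu hu' (by omega) (by omega) (by omega) (h0.trans h0'.symm)
    (h2.trans h2'.symm)
  rw [h1, h1'] at this
  exact hne this

lemma T_level {g : ℕ} (hG : NoShort G g) (k : ℕ) : ∀ (k' : ℕ) (x y : V), G.Adj x y → k < k' →
    k + k' + 2 < g → Disjoint (T G k x y) (T G k' x y) := by
  induction k with
  | zero =>
    intro k' x y hxy hk hg
    obtain ⟨m, rfl⟩ : ∃ m, k' = m + 1 := ⟨k' - 1, by omega⟩
    rw [Finset.disjoint_left]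
    intro w hw hw'
    rw [T_zero, Finset.mem_singleton] at hw
    rw [T_succ, Finset.mem_biUnion] at hw'
    obtain ⟨z, hz, hwz⟩ := hw'
    rw [Finset.mem_erase, mem_neighborFinset] at hz
    obtain ⟨u, hu, h0, h1, h2⟩ := exists_nbs_of_mem hz.2 hwz
    exact hu.ne hG (by omega) (show 0 < m + 1 by omega) le_rfl (by rw [h0, h2, hw])
  | succ k ih =>
    intro k' x y hxy hk hg
    obtain ⟨m, rfl⟩ : ∃ m, k' = m + 1 := ⟨k' - 1, by omega⟩
    rw [Finset.disjoint_left]
    intro w hw hw'
    rw [T_succ, Finset.mem_biUnion] at hw hw'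
    obtain ⟨z, hz, hwz⟩ := hw
    obtain ⟨z', hz', hwz'⟩ := hw'
    rw [Finset.mem_erase, mem_neighborFinset] at hz hz'
    by_cases hzz : z = z'
    · subst hzz
      exact (Finset.disjoint_left.1 (ih m y z hz.2 (by omega) (by omega))) hwz hwz'
    · obtain ⟨u, hu, h0, h1, h2⟩ := exists_nbs_of_mem hz.2 hwz
      obtain ⟨u', hu', h0', h1', h2'⟩ := exists_nbs_of_mem hz'.2 hwz'
      have := nbs_first hG hu hu' (by omega) (by omega) (by omega) (h0.trans h0'.symm)
        (h2.trans h2'.symm)
      rw [h1, h1'] at this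
      exact hzz this

lemma card_T_succ {g k : ℕ} (hG : NoShort G g) (hk : 2 * (k + 1) < g) (x y : V) :
    (T G (k + 1) x y).card = ∑ z ∈ (G.neighborFinset y).erase x, (T G k y z).card := by
  rw [T_succ]
  apply Finset.card_biUnion
  intro z hz z' hz' hne
  rw [Finset.mem_coe, Finset.mem_erase, mem_neighborFinset] at hz hz'
  exact T_disj hG hk hz.2 hz'.2 hne

lemma card_T_mono {g : ℕ} (hG : NoShort G g) (hd : ∀ v, 2 ≤ G.degree v) (k : ℕ) :
    ∀ x y : V, 2 * (k + 1) < g → (T G k x y).card ≤ (T G (k + 1) x y).card := by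
  induction k with
  | zero =>
    intro x y hk
    rw [card_T_succ hG hk]
    simp only [T_zero, Finset.card_singleton, Finset.sum_const, smul_eq_mul, mul_one]
    have h1 := Finset.pred_card_le_card_erase (s := G.neighborFinset y) (a := x)
    rw [G.card_neighborFinset_eq_degree] at h1
    have := hd y
    omega
  | succ k ih =>
    intro x y hk
    rw [card_T_succ hG hk, card_T_succ hG (by omega)]
    apply Finset.sum_le_sum
    intro z _
    exact ih y z (by omega)

lemma card_T_mono' {g : ℕ} (hG : NoShort G g) (hd : ∀ v, 2 ≤ G.degree v) {k k' : ℕ}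
    (hkk : k ≤ k') (x y : V) (hk : 2 * k' < g) : (T G k x y).card ≤ (T G k' x y).card := by
  induction k', hkk using Nat.le_induction with
  | base => exact le_rfl
  | succ m hm ih => exact (ih (by omega)).trans (card_T_mono hG hd m x y (by omega))

lemma one_le_card_T {g : ℕ} (hG : NoShort G g) (hd : ∀ v, 2 ≤ G.degree v) {k : ℕ}
    (x y : V) (hk : 2 * k < g) : 1 ≤ (T G k x y).card := by
  have := card_T_mono' hG hd (Nat.zero_le k) x y hk
  rwa [T_zero, Finset.card_singleton] at this

/-- The ball bound. -/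
lemma card_T_mul_le {g k K : ℕ} (hG : NoShort G g) (hd : ∀ v, 2 ≤ G.degree v)
    (hK : 2 * K ≤ g) {x y : V} (hxy : G.Adj x y) :
    (K - k) * (T G k x y).card ≤ Fintype.card V := by
  have h1 : ((Finset.Ico k K).biUnion (fun i => T G i x y)).card =
      ∑ i ∈ Finset.Ico k K, (T G i x y).card := by
    apply Finset.card_biUnion
    intro i hi j hj hij
    rw [Finset.mem_coe, Finset.mem_Ico] at hi hj
    rcases Nat.lt_or_gt_of_ne hij with h | h
    · exact T_level hG i j x y hxy h (by omega)
    · exact (T_level hG j i x y hxy h (by omega)).symm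
  have h2 : (K - k) * (T G k x y).card ≤ ∑ i ∈ Finset.Ico k K, (T G i x y).card := by
    rw [← Nat.card_Ico, ← smul_eq_mul]
    apply Finset.card_nsmul_le_sum
    intro i hi
    rw [Finset.mem_Ico] at hi
    exact card_T_mono' hG hd hi.1 x y (by omega)
  rw [← h1] at h2
  exact h2.trans (Finset.card_le_univ _)

end

end Pool.Agent.Helper64.Cyc
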