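import Pool.Agent.Helper64.Cyc.Seq

/-!
# The upper bound
-/

namespace Pool.Agent.Helper64.Cyc

open SimpleGraph Finset Pool.Agent.Helper72.Cyc

variable {V : Type*} {G : SimpleGraph V}

lemma add4 {a b c d : Sym2 V → ZMod 2} (h : a + b = c + d) : a + c = b + d := by
  funext e
  have h1 := congrFun h e
  simp only [Pi.add_apply] at h1 ⊢
  generalize a e = x at *
  generalize b e = y at *
  generalize c e = z at *
  generalize d e = w at *
  revert x y z w
  decide

lemma cancel4 {k k' p p' : Sym2 V → ZMod 2} (h : k + k' = (k + p) + (k' + p')) : p = p' := by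
  funext e
  have h1 := congrFun h e
  simp only [Pi.add_apply] at h1 ⊢
  generalize k e = x at *
  generalize k' e = y at *
  generalize p e = z at *
  generalize p' e = w at *
  revert x y z w
  decide

lemma IsCyc.shift {L : ℕ} {u : ℕ → V} (h : IsCyc G L u) : IsCyc G L (fun i => u (i + 1)) := by
  have h3 := h.three
  have h0 : u L = u 0 := by have := h.per 0; rwa [zero_add] at this
  refine ⟨h3, ?_, fun i => h.adj (i + 1), ?_⟩
  · intro i
    have e : i + L + 1 = i + 1 + L := by ring
    simp only [e]
    exact h.per (i + 1)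
  · intro i j hi hj hij
    rcases Nat.lt_or_ge (i + 1) L with h1 | h1 <;> rcases Nat.lt_or_ge (j + 1) L with h2 | h2
    · have := h.inj _ _ h1 h2 hij
      omega
    · exfalso
      have e : j + 1 = L := by omega
      simp only [e, h0] at hij
      have := h.inj _ _ h1 (by omega) hij
      omega
    · exfalso
      have e : i + 1 = L := by omega
      simp only [e, h0] at hij
      have := h.inj _ _ (by omega) h2 hij
      omega
    · omega

lemma IsCyc.shift_add {L : ℕ} {u : ℕ → V} (h : IsCyc G L u) (a : ℕ) :
    IsCyc G L (fun i => u (i + a)) := by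
  induction a with
  | zero => exact h
  | succ a ih =>
    have := ih.shift
    have e : (fun i => u (i + (a + 1))) = fun i => u (i + 1 + a) := by
      funext i; congr 1; ring
    rw [e]; exact this

lemma IsCyc.le_card [Fintype V] {L : ℕ} {u : ℕ → V} (h : IsCyc G L u) : L ≤ Fintype.card V := by
  have := Fintype.card_le_of_injective (fun i : Fin L => u i.val)
    (fun i j hij => Fin.ext (h.inj _ _ i.2 j.2 hij))
  rwa [Fintype.card_fin] at this

/-- Partial parity sums. -/
noncomputable def psum (u : ℕ → V) (t : ℕ) : Sym2 V → ZMod 2 :=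
  ∑ i ∈ Finset.range t, ind (u i) (u (i + 1))

lemma psum_zero (u : ℕ → V) : psum u 0 = 0 := by simp [psum]

lemma psum_L (u : ℕ → V) (L : ℕ) : psum u L = cpar L u := rfl

lemma con_psum {u : ℕ → V} (hadj : ∀ i, G.Adj (u i) (u (i + 1))) (a l : ℕ) :
    Con G (u a) (u (a + l)) l (psum u a + psum u (a + l)) := by
  induction l with
  | zero =>
    rw [add_zero, add_self_zero]
    exact Con.refl _
  | succ l ih =>
    have h1 := ih.trans (Con.adj (hadj (a + l)))
    have h2 : psum u (a + (l + 1)) = psum u (a + l) + ind (u (a + l)) (u (a + l + 1)) := by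
      unfold psum
      rw [← add_assoc, Finset.sum_range_succ]
    rw [h2, ← add_assoc (psum u a)]
    exact h1

lemma con_psum' {u : ℕ → V} (hadj : ∀ i, G.Adj (u i) (u (i + 1))) {a b l : ℕ} (hab : a ≤ b)
    (hl : b ≤ a + l) : Con G (u a) (u b) l (psum u a + psum u b) := by
  have := con_psum hadj a (b - a)
  have e : a + (b - a) = b := by omega
  rw [e] at this
  exact this.mono (by omega)

/-- Vertices on a cycle. -/
def OnCyc (G : SimpleGraph V) (v : V) : Prop := ∃ L u, IsCyc G L u ∧ u 0 = v

lemma IsCyc.onCyc {L : ℕ} {u : ℕ → V} (h : IsCyc G L u) (i : ℕ) : OnCyc G (u i) :=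
  ⟨L, _, h.shift_add i, by simp⟩

/-- A maximal scattered set of vertices on cycles. -/
lemma exists_centres [Fintype V] {g r : ℕ} (hG : NoShort G g) (hr : r < g) :
    ∃ Z : Finset V, Z.card * (r + 1) ≤ Fintype.card V ∧
      ∀ v, OnCyc G v → ∃ z ∈ Z, ∃ P, Con G v z (2 * r) P := by
  classical
  set F : Finset (Finset V) := {Z | (∀ z ∈ Z, OnCyc G z) ∧
    ∀ x ∈ Z, ∀ y ∈ Z, (∃ P, Con G x y (2 * r) P) → x = y} with hF
  have hne : F.Nonempty := ⟨∅, by rw [hF, Finset.mem_filter]; simp⟩
  obtain ⟨Z, hZ, hmax⟩ := Finset.exists_max_image F Finset.card hne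
  rw [hF, Finset.mem_filter] at hZ
  obtain ⟨-, hon, hsep⟩ := hZ
  refine ⟨Z, ?_, ?_⟩
  · have h1 : ∀ z : Z, ∃ L u, IsCyc G L u ∧ u 0 = z.1 := fun z => hon z.1 z.2
    choose L u hu hu0 using h1
    have hinj : Function.Injective (fun p : Z × Fin (r + 1) => u p.1 p.2.val) := by
      rintro ⟨z, i⟩ ⟨z', j⟩ hij
      simp only at hij
      have hz : z = z' := by
        apply Subtype.ext
        apply hsep z.1 z.2 z'.1 z'.2
        have c1 := con_psum' (hu z).adj (a := 0) (b := i.val) (l := r) (by omega)
          (by have := i.2; omega)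
        have c2 := con_psum' (hu z').adj (a := 0) (b := j.val) (l := r) (by omega)
          (by have := j.2; omega)
        rw [hu0] at c1 c2
        rw [hij] at c1
        have := c1.trans c2.symm
        exact ⟨_, this.mono (by omega)⟩
      subst hz
      have hL := noShort_iff.1 hG (L z) (u z) (hu z)
      have := (hu z).inj _ _ (by have := i.2; omega) (by have := j.2; omega) hij
      exact Prod.ext rfl (Fin.ext this)
    have := Fintype.card_le_of_injective _ hinj
    rwa [Fintype.card_prod, Fintype.card_fin, Fintype.card_coe] at this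
  · intro v hv
    by_contra hcon
    push Not at hcon
    have hvZ : v ∉ Z := by
      intro hvZ
      exact hcon v hvZ 0 ((Con.refl v).mono (by omega))
    have hmem : insert v Z ∈ F := by
      rw [hF, Finset.mem_filter]
      refine ⟨Finset.mem_univ _, ?_, ?_⟩
      · intro z hz
        rcases Finset.mem_insert.1 hz with h | h
        · rw [h]; exact hv
        · exact hon z h
      · intro x hx y hy ⟨P, hP⟩
        rcases Finset.mem_insert.1 hx with h1 | h1 <;> rcases Finset.mem_insert.1 hy with h2 | h2
        · rw [h1, h2]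
        · exfalso
          rw [h1] at hP
          exact hcon y h2 P hP
        · exfalso
          rw [h2] at hP
          exact hcon x h1 P hP.symm
        · exact hsep x h1 y h2 ⟨P, hP⟩
    have := hmax _ hmem
    rw [Finset.card_insert_of_notMem hvZ] at this
    omega

/-- The number of cycles of a graph of girth at least `g`. -/
lemma numCycles_upper [Fintype V] {g r : ℕ} (hG : NoShort G g) (hr : 10 * r + 2 < g) :
    numCycles G ≤ (Fintype.card V / (r + 1)) ^ (Fintype.card V / (r + 1) + 1) := by
  classical
  obtain ⟨Z, hZc, hZ⟩ := exists_centres (r := r) hG (by omega)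
  set n := Fintype.card V with hn
  set M := n / (r + 1) + 1 with hM
  have hMpos : 0 < M := by rw [hM]; exact Nat.succ_pos _
  have hMn : n ≤ M * (r + 1) := by
    have h1 := Nat.div_add_mod n (r + 1)
    have h2 := Nat.mod_lt n (show 0 < r + 1 by omega)
    rw [hM, Nat.add_mul, one_mul, mul_comm (n / (r + 1))]
    omega
  have hZ' : ∀ v, ∃ z P, OnCyc G v → z ∈ Z ∧ Con G v z (2 * r) P := by
    intro v
    by_cases hv : OnCyc G v
    · obtain ⟨z, hz, P, hP⟩ := hZ v hv
      exact ⟨z, P, fun _ => ⟨hz, hP⟩⟩
    · exact ⟨v, 0, fun h => absurd h hv⟩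
  choose κ K hκ using hZ'
  have hch : ∀ P : {P // P ∈ cycSet G}, ∃ L u, IsCyc G L u ∧ P.1 = cpar L u :=
    fun P => mem_cycSet.1 P.2
  choose L u hu hP using hch
  let t : {P // P ∈ cycSet G} → ℕ → ℕ := fun P i => min (i * (r + 1)) (L P)
  let x : {P // P ∈ cycSet G} → ℕ → V := fun P i => u P (t P i)
  have hxon : ∀ P i, OnCyc G (x P i) := fun P i => (hu P).onCyc _
  let code : {P // P ∈ cycSet G} → Fin M → Z := fun P i => ⟨κ (x P i.val), (hκ _ (hxon P _)).1⟩
  have hcode : Function.Injective code := by
    intro P P' hPP'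
    have hx0 : ∀ Q, x Q 0 = u Q 0 := by
      intro Q
      simp only [x, t]; simp
    have htM : ∀ Q, t Q M = L Q := by
      intro Q
      have := (hu Q).le_card
      exact Nat.min_eq_right (this.trans hMn)
    have hxM : ∀ Q, x Q M = x Q 0 := by
      intro Q
      rw [hx0]
      simp only [x]
      rw [htM]
      have := (hu Q).per 0
      rwa [zero_add] at this
    have hk : ∀ i, i < M → κ (x P i) = κ (x P' i) := by
      intro i hi
      have := congrFun hPP' ⟨i, hi⟩
      exact congrArg Subtype.val this
    have hk' : ∀ i, i ≤ M → κ (x P i) = κ (x P' i) := by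
      intro i hi
      rcases Nat.eq_or_lt_of_le hi with h | h
      · rw [h, hxM, hxM]
        exact hk 0 hMpos
      · exact hk i h
    have hstep : ∀ Q i, Con G (κ (x Q i)) (κ (x Q (i + 1))) (5 * r + 1)
        ((K (x Q i) + psum (u Q) (t Q i)) + (K (x Q (i + 1)) + psum (u Q) (t Q (i + 1)))) := by
      intro Q i
      have h1 := (hκ _ (hxon Q i)).2
      have h2 := (hκ _ (hxon Q (i + 1))).2
      have h3 : Con G (x Q i) (x Q (i + 1)) (r + 1)
          (psum (u Q) (t Q i) + psum (u Q) (t Q (i + 1))) := by
        apply con_psum' (hu Q).adj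
        · simp only [t]
          apply min_le_min _ le_rfl
          exact Nat.mul_le_mul_right _ (by omega)
        · simp only [t]
          have : (i + 1) * (r + 1) = i * (r + 1) + (r + 1) := by ring
          rw [this]; omega
      have h4 := (h1.symm.trans h3).trans h2
      have e1 : 2 * r + (r + 1) + 2 * r = 5 * r + 1 := by ring
      rw [e1] at h4
      have e2 : K (x Q i) + (psum (u Q) (t Q i) + psum (u Q) (t Q (i + 1))) + K (x Q (i + 1)) =
          (K (x Q i) + psum (u Q) (t Q i)) + (K (x Q (i + 1)) + psum (u Q) (t Q (i + 1))) := by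
        abel
      rwa [e2] at h4
    let A : {P // P ∈ cycSet G} → ℕ → (Sym2 V → ZMod 2) :=
      fun Q i => K (x Q i) + psum (u Q) (t Q i)
    have hA : ∀ i, i < M → A P i + A P' i = A P (i + 1) + A P' (i + 1) := by
      intro i hi
      have h1 := hstep P i
      have h2 := hstep P' i
      rw [← hk' i hi.le, ← hk' (i + 1) hi] at h2
      have h3 := Con.unique hG h1 h2 (by omega)
      have h4 : A P i + A P (i + 1) = A P' i + A P' (i + 1) := h3
      exact add4 h4
    have hA' : ∀ i, i ≤ M → A P 0 + A P' 0 = A P i + A P' i := by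
      intro i
      induction i with
      | zero => intro _; rfl
      | succ i ih =>
        intro hi
        rw [ih (by omega)]
        exact hA i (by omega)
    have h1 := hA' M le_rfl
    have hA0 : ∀ Q, A Q 0 = K (x Q 0) := by
      intro Q
      have : t Q 0 = 0 := by simp only [t]; simp
      simp only [A]
      rw [this, psum_zero, add_zero]
    have hAM : ∀ Q, A Q M = K (x Q 0) + Q.1 := by
      intro Q
      simp only [A]
      rw [htM, hxM, psum_L, ← hP]
    rw [hA0, hA0, hAM, hAM] at h1
    exact Subtype.ext (cancel4 h1)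
  have h1 := Fintype.card_le_of_injective code hcode
  rw [Fintype.card_coe, Fintype.card_fun, Fintype.card_fin, Fintype.card_coe] at h1
  rw [numCycles_eq_card]
  refine h1.trans ?_
  apply Nat.pow_le_pow_left
  rw [Nat.le_div_iff_mul_le (by omega)]
  exact hZc

end Pool.Agent.Helper64.Cyc
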